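import Mathlib
import Pool.Agent.H410R2.Iface2
import Pool.Agent.H378R2.Defs
import Pool.Agent.H398R2.BV5

/-!
Project SP (helper728): `S17881` (MP_9c2ea5_nt): for every `a` there are `x > y > a` with `x + y + 1` and `x y + 1`
both prime.  Definitions and statements of the steps.

Sketch.  Put `u = M m x`, `v = M (M/m) y` with `M` a primorial and `m ∣ M`.  Then `u v + 1 = M³ x y + 1` does not
depend on `m`, and `u + v + 1 = M (m x + (M/m) y) + 1`.  For the `K = 2^{π(l/2000)}` divisors `m` of `M` the second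
moment of `∑_m (aa - gg)(m x + (M/m) y)` over `x ∈ (V, 2V]`, `y ∈ [1, Y]` is computed with the primes in arithmetic
progressions to tiny moduli only; Cauchy-Schwarz removes the factor `Λ(M³ x y + 1)`; the main term is computed with the
Bombieri-Vinogradov theorem of level `X^{1/2} e^{-l/9}` for `X = exp (l^40)` at scales `l` without exceptional zeros.
-/

set_option autoImplicit false

namespace Pool.Agent.N728.SP

open Finset Pool.Agent.H410R2 Pool.Agent.H378R2 Pool.Agent.H398R2.BV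

/-! ### Analytic part -/

/-- log-weighted sum of a sequence -/
noncomputable def PL (c : ℕ → ℂ) (x : ℝ) : ℂ :=
  ∑ n ∈ Icc 1 ⌊x⌋₊, c n * ((Real.log (x / n) : ℝ) : ℂ)

/-- tent-weighted sum of a sequence -/
noncomputable def PP (c : ℕ → ℂ) (x : ℝ) : ℂ :=
  ∑ n ∈ Icc 1 ⌊3 * x⌋₊, ((Phi (n / x) : ℝ) : ℂ) * c n

/-- TEL: from the tent weight to the logarithmic weight -/
def S_TEL : Prop := ∀ (c : ℕ → ℂ) (x ε B : ℝ) (K : ℕ), 1 ≤ K → 0 ≤ ε → 0 ≤ B → 1 ≤ x * Real.exp (-(K / 2)) →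
  (∀ z : ℝ, x * Real.exp (-(K / 2)) ≤ z → z ≤ x → ‖PP c z‖ ≤ ε * z) →
  (∀ z : ℝ, 1 ≤ z → z ≤ x → ‖PL c z‖ ≤ B * z) →
    ‖PL c x‖ ≤ (4 * K + 1) * B * x * Real.exp (-(K / 2)) + K ^ 2 * ε * x

/-- zero-free region for all primitive characters of conductor `≤ e^l`, height `≤ e^l`, no exception -/
def ZF (d l : ℝ) : Prop := ∀ (f : ℕ) [NeZero f], 1 < f → Real.log f ≤ l →
  ∀ χ : DirichletCharacter ℂ f, χ.IsPrimitive →
    ∀ s : ℂ, |s.re - 1| ≤ d / l ^ 18 → Real.log (2 * |s.im| + 3) ≤ l →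
      χ.LFunction s ≠ 0 ∧ ‖deriv χ.LFunction s / χ.LFunction s‖ ≤ l ^ 18 / d

/-- GS: there are arbitrarily large scales without exceptional character -/
def S_GS : Prop := ∃ d : ℝ, 0 < d ∧ d ≤ 1 / 2 ∧ ∀ L0 : ℝ, ∃ l : ℝ, L0 ≤ l ∧ ZF d l

/-- prime sums twisted by characters of small conductor are small -/
def SCon (l : ℝ) : Prop := ∀ f : ℕ, 2 ≤ f → (f : ℝ) ≤ Real.exp (l / 2) →
  ∀ ψ : DirichletCharacter ℂ f, ψ.IsPrimitive → ∀ x : ℝ, Real.exp (l ^ 22) ≤ x → x ≤ Real.exp (l ^ 42) →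
    ‖psiLog x f ψ‖ ≤ x * Real.exp (-(3 * l / 4))

/-- SC -/
def S_SC : Prop := ∀ d : ℝ, 0 < d → d ≤ 1 / 2 → ∃ l0 : ℝ, ∀ l : ℝ, l0 ≤ l → ZF d l → SCon l

/-- ZP: contour integral for the zeta function -/
def S_ZP : Prop := ∃ l0 : ℝ, ∀ l : ℝ, l0 ≤ l → ∀ x : ℝ, Real.exp (l ^ 22 / 2) ≤ x → x ≤ Real.exp (l ^ 42) →
  ‖PP (fun n => ((ArithmeticFunction.vonMangoldt n : ℝ) : ℂ) - 1) x‖ ≤ x * Real.exp (-(7 * l / 8))

/-- SP: the prime number theorem with a strong error term -/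
def S_SP : Prop := ∃ l0 : ℝ, ∀ l : ℝ, l0 ≤ l → ∀ x : ℝ, Real.exp (l ^ 22) ≤ x → x ≤ Real.exp (l ^ 42) →
  |psiLog1 x - x| ≤ x * Real.exp (-(3 * l / 4))

/-! ### Parameters -/

/-- the main scale -/
noncomputable def XX (l : ℝ) : ℝ := Real.exp (l ^ 40)

/-- the product of the primes `≤ l / 2000` -/
noncomputable def MM (l : ℝ) : ℕ := primorial ⌊l / 2000⌋₊

/-- level of the model -/
noncomputable def QQ (l : ℝ) : ℕ := ⌊Real.exp (l / 100)⌋₊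

/-- `x` ranges over `(V, 2V]` -/
noncomputable def VV (l : ℝ) : ℕ := ⌊Real.exp (l ^ 40 / 2 - l / 8)⌋₊

/-- `y` ranges over `[1, Y]` -/
noncomputable def YY (l : ℝ) : ℕ := ⌊XX l / ((MM l : ℝ) ^ 3 * VV l)⌋₊

/-- SIZ: sizes of the parameters -/
def S_SIZ : Prop := ∃ l0 : ℝ, ∀ l : ℝ, l0 ≤ l →
  (1 : ℝ) ≤ l ∧ (MM l : ℝ) ≤ Real.exp (l / 1400) ∧ MM l ^ 2 ≤ QQ l ∧ QQ l ^ 2 ≤ VV l ∧ VV l ≤ YY l ∧
  MM l ^ 2 ≤ YY l ∧ Real.exp (l ^ 40 / 2 - l / 8) / 2 ≤ VV l ∧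
  XX l / (2 * ((MM l : ℝ) ^ 3 * VV l)) ≤ YY l ∧ (MM l : ℝ) * (4 * MM l * YY l) + 1 ≤ Real.exp (l ^ 40 / 2 + l / 8)

/-- KK: many divisors -/
def S_K : Prop := ∀ A : ℕ, ∃ l0 : ℝ, ∀ l : ℝ, l0 ≤ l → l ^ A ≤ ((MM l).divisors.card : ℝ)

/-! ### Consequences for primes -/

/-- BV: Bombieri-Vinogradov just below `X^{1/2}` -/
def S_BV : Prop := ∃ l0 : ℝ, ∀ l : ℝ, l0 ≤ l → SCon l →
  ∑ f ∈ Icc 2 ⌊Real.exp (l ^ 40 / 2 - l / 9)⌋₊, (1 / (Nat.totient f : ℝ)) *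
    ∑ ψ ∈ Prim f, ‖psiLog (XX l) f ψ‖ ≤ XX l * Real.exp (-(l / 35))

/-- DISC: the discrepancies needed in the main term -/
def S_DISC : Prop := ∃ l0 : ℝ, ∀ l : ℝ, l0 ≤ l → SCon l → ∀ b : ℕ → ℕ → ℕ,
  ∑ x ∈ Ioc (VV l) (2 * VV l), ∑ e ∈ (Icc 1 (QQ l)).filter (fun e => (b x e).Coprime (MM l ^ 3 * x * e)),
    |psiLogAP (XX l) (MM l ^ 3 * x * e) (b x e) - psiLog1 (XX l) / (Nat.totient (MM l ^ 3 * x * e) : ℝ)| ≤
      XX l * Real.exp (-(l / 60))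

/-- AP: the prime number theorem in arithmetic progressions with sharp cut-off -/
def S_AP : Prop := ∃ l0 : ℝ, ∀ l : ℝ, l0 ≤ l → SCon l → ∀ q b : ℕ, 1 ≤ q → (q : ℝ) ≤ Real.exp (l / 100) →
  b.Coprime q → ∀ z : ℕ, (z : ℝ) ≤ Real.exp (l ^ 40 / 2 + l / 8) →
    |∑ n ∈ (Icc 1 z).filter (fun n => n ≡ b [MOD q]), ArithmeticFunction.vonMangoldt n - z / (Nat.totient q : ℝ)| ≤
      Real.exp (l ^ 40 / 2 - l / 5)

/-! ### The model -/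

/-- normalised von Mangoldt function along `M s + 1` -/
noncomputable def aa (M s : ℕ) : ℝ := (Nat.totient M : ℝ) / M * ArithmeticFunction.vonMangoldt (M * s + 1)

/-- index set of the model -/
def RR (M Q : ℕ) : Finset ℕ := (Icc 1 Q).filter (fun r => Squarefree r ∧ r.Coprime M)

/-- `μ(r) c_r(n) / φ(r)` -/
noncomputable def hh (r n : ℕ) : ℝ := ∏ p ∈ r.primeFactors, if p ∣ n then -1 else 1 / ((p : ℝ) - 1)

/-- the model -/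
noncomputable def gg (M Q s : ℕ) : ℝ := ∑ r ∈ RR M Q, hh r (M * s + 1)

/-- the difference -/
noncomputable def ff (M Q s : ℕ) : ℝ := aa M s - gg M Q s

/-- the coefficients in the divisor form of the model -/
noncomputable def ww (M Q e : ℕ) : ℝ :=
  ((ArithmeticFunction.moebius e : ℤ) : ℝ) * e * ∑ r ∈ (RR M Q).filter (fun r => e ∣ r), 1 / (Nat.totient r : ℝ)

/-- GB: trivial bound of the model -/
def S_GB : Prop := ∀ M Q s : ℕ, |gg M Q s| ≤ Q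

/-- GD: divisor form -/
def S_GD : Prop := ∀ M Q s : ℕ, gg M Q s = ∑ e ∈ RR M Q, if e ∣ M * s + 1 then ww M Q e else 0

/-- WB: bound of the coefficients -/
def S_WB : Prop := ∃ C : ℕ, ∀ M Q e : ℕ, 1 ≤ Q → e ∈ RR M Q → |ww M Q e| ≤ (2 + Real.log Q) ^ C

/-- GQ: mean square of the model along progressions with difference dividing `M` -/
def S_GQ : Prop := ∃ C : ℕ, ∀ M Q a b n : ℕ, 1 ≤ M → 1 ≤ Q → b ∣ M →
  ∑ k ∈ range n, gg M Q (a + b * k) ^ 2 ≤ (2 + Real.log Q) ^ C * (n + Q ^ 2)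

/-- GA: the model in arithmetic progressions -/
def S_GA : Prop := ∀ M Q d A n : ℕ, 1 ≤ M → 1 ≤ d → d ≤ Q →
  |∑ k ∈ range n, gg M Q (A + d * k) -
    n * ∏ p ∈ d.primeFactors.filter (fun p => ¬ p ∣ M), (if p ∣ M * A + 1 then 0 else (p : ℝ) / (p - 1))| ≤ Q ^ 2

/-- FF: the difference in arithmetic progressions -/
def S_FF : Prop := ∃ l0 : ℝ, ∀ l : ℝ, l0 ≤ l → SCon l → ∀ d A n : ℕ, 1 ≤ d → d ≤ MM l ^ 2 →
  A + d * n ≤ 4 * MM l * YY l →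
    |∑ k ∈ range n, ff (MM l) (QQ l) (A + d * k)| ≤ Real.exp (l ^ 40 / 2 - l / 6)

/-! ### Second moment -/

/-- PR: pairs of different factorisations -/
def S_PR : Prop := ∀ (M V Y N m m' : ℕ) (F : ℕ → ℝ) (E B : ℝ), 1 ≤ M → Squarefree M → m ∣ M → m' ∣ M → m ≠ m' →
  2 * M * V + M * Y + M ^ 2 ≤ N → 0 ≤ E → 0 ≤ B → (∀ s ≤ N, |F s| ≤ B) →
  (∀ d A n : ℕ, 1 ≤ d → d ≤ M ^ 2 → A + d * n ≤ N → |∑ k ∈ range n, F (A + d * k)| ≤ E) →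
    |∑ x ∈ Ioc V (2 * V), ∑ y ∈ Icc 1 Y, F (m * x + M / m * y) * F (m' * x + M / m' * y)| ≤ N * B * E

/-- VR: the second moment -/
def S_VR : Prop := ∃ (C : ℕ) (l0 : ℝ), ∀ l : ℝ, l0 ≤ l → SCon l →
  ∑ x ∈ Ioc (VV l) (2 * VV l), ∑ y ∈ Icc 1 (YY l),
    (∑ m ∈ (MM l).divisors, ff (MM l) (QQ l) (m * x + MM l / m * y)) ^ 2 ≤
      (MM l).divisors.card * ((VV l : ℝ) * YY l * l ^ C) +
        ((MM l).divisors.card : ℝ) ^ 2 * ((VV l : ℝ) * YY l * Real.exp (-(l / 50)))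

/-! ### The main term -/

/-- the weight -/
noncomputable def bb (l : ℝ) (x y : ℕ) : ℝ :=
  (Nat.totient (MM l ^ 3 * x) : ℝ) / ((MM l ^ 3 * x : ℕ) : ℝ) *
    (ArithmeticFunction.vonMangoldt (MM l ^ 3 * x * y + 1) * max 0 (Real.log (XX l / ((MM l ^ 3 * x * y + 1 : ℕ) : ℝ))))

/-- local factors of the singular series -/
noncomputable def kap (p x u : ℕ) : ℝ :=
  if p ∣ x then 0 else if p ∣ u ^ 2 + u - 1 then 1 else -(1 / ((p : ℝ) - 1))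

/-- singular series -/
noncomputable def SS1 (M Q x u : ℕ) : ℝ :=
  ∑ r ∈ RR M Q, (1 / (Nat.totient r : ℝ)) * ∏ p ∈ r.primeFactors, kap p x u

/-- H1: the sum over `e` -/
def S_H1 : Prop := ∀ M Q x u : ℕ, 1 ≤ M → 1 ≤ x → 1 ≤ u → M ∣ u → x ∣ u →
  ∑ e ∈ (RR M Q).filter (fun e => e.Coprime (u ^ 2 + u - 1)), ww M Q e / (Nat.totient (M ^ 3 * x * e) : ℝ) =
    (1 / (Nat.totient (M ^ 3 * x) : ℝ)) * SS1 M Q x u

/-- H2: the singular series is close to one on average -/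
def S_H2 : Prop := ∃ C : ℝ, ∀ z Q V m : ℕ, 2 ≤ z → 1 ≤ Q → m ∣ primorial z → Q ≤ V →
  ∑ x ∈ Ioc V (2 * V), |SS1 (primorial z) Q x (primorial z * m * x) - 1| ≤ C * V / z

/-- H3: the sum over `y` is a sum over a residue class -/
def S_H3 : Prop := ∀ (M e m x Y : ℕ) (X : ℝ), Squarefree M → m ∣ M → 1 ≤ M → 1 ≤ x → 1 ≤ e → e.Coprime M → 1 ≤ X →
  X ≤ M ^ 3 * x * (Y + 1) + 1 →
  ∃ c : ℕ, ((M ^ 3 * x * c + 1).Coprime (M ^ 3 * x * e) ↔ e.Coprime ((M * m * x) ^ 2 + M * m * x - 1)) ∧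
    ∑ y ∈ (Icc 1 Y).filter (fun y => e ∣ M * (m * x + M / m * y) + 1),
      ArithmeticFunction.vonMangoldt (M ^ 3 * x * y + 1) *
        max 0 (Real.log (X / ((M ^ 3 * x * y + 1 : ℕ) : ℝ))) = psiLogAP X (M ^ 3 * x * e) (M ^ 3 * x * c + 1)

/-- NC: classes which are not coprime to the modulus -/
def S_NC : Prop := ∀ (X : ℝ) (q b : ℕ), 1 ≤ X → 1 ≤ q → ¬ b.Coprime q → psiLogAP X q b ≤ 2 * Real.log X ^ 2

/-- MT: the main term -/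
def S_MT : Prop := ∃ l0 : ℝ, ∀ l : ℝ, l0 ≤ l → SCon l → ∀ m ∈ (MM l).divisors,
  XX l / (8 * (MM l : ℝ) ^ 3) ≤
    ∑ x ∈ Ioc (VV l) (2 * VV l), ∑ y ∈ Icc 1 (YY l), bb l x y * gg (MM l) (QQ l) (m * x + MM l / m * y)

/-! ### Conclusion -/

/-- PC: proper prime powers are rare -/
def S_PC : Prop := ∀ N : ℕ, 1 ≤ N →
  (((Icc 1 N).filter (fun n => IsPrimePow n ∧ ¬ n.Prime)).card : ℝ) ≤ Real.sqrt N * (2 * Real.log N + 1)

/-- FIN: the lower bound for the weighted number of solutions -/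
def S_LB : Prop := ∃ l0 : ℝ, ∀ l : ℝ, l0 ≤ l → SCon l →
  ((MM l).divisors.card : ℝ) * (XX l / (16 * (MM l : ℝ) ^ 3)) ≤
    ∑ x ∈ Ioc (VV l) (2 * VV l), ∑ y ∈ Icc 1 (YY l), bb l x y * ∑ m ∈ (MM l).divisors, aa (MM l) (m * x + MM l / m * y)

/-- END: solutions -/
def S_END : Prop := ∀ a : ℕ, ∃ x y : ℕ, x > y ∧ y > a ∧ (x + y + 1).Prime ∧ (x * y + 1).Prime

end Pool.Agent.N728.SP
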