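import Mathlib
import Pool.Agent.N728.SP.Def

/-! Project SP: elementary tools for the assembly. -/

set_option autoImplicit false

namespace Pool.Agent.N728.SP

open Finset Filter

/-- exponentials beat powers -/
theorem pow_le_exp (K c : ℝ) (k : ℕ) (hc : 0 < c) : ∃ a : ℝ, ∀ l : ℝ, a ≤ l → K * l ^ k ≤ Real.exp (c * l) := by
  have h1 : Tendsto (fun x : ℝ => x ^ k * Real.exp (-(c * x))) atTop (nhds 0) := by
    have h := Real.tendsto_pow_mul_exp_neg_atTop_nhds_zero k
    have h2 : Tendsto (fun x : ℝ => c * x) atTop atTop := tendsto_id.const_mul_atTop hc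
    have h3 := (h.comp h2).const_mul ((1 / c) ^ k)
    rw [mul_zero] at h3
    refine h3.congr (fun x => ?_)
    simp only [Function.comp]
    rw [mul_pow]
    have : (1 / c) ^ k * c ^ k = 1 := by rw [← mul_pow, one_div_mul_cancel hc.ne', one_pow]
    calc (1 / c) ^ k * (c ^ k * x ^ k * Real.exp (-(c * x))) =
        ((1 / c) ^ k * c ^ k) * (x ^ k * Real.exp (-(c * x))) := by ring
      _ = _ := by rw [this, one_mul]
  have h4 : Tendsto (fun x : ℝ => K * (x ^ k * Real.exp (-(c * x)))) atTop (nhds 0) := by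
    simpa using h1.const_mul K
  obtain ⟨a, ha⟩ := eventually_atTop.mp (h4.eventually (ge_mem_nhds (show (0 : ℝ) < 1 by norm_num)))
  refine ⟨a, fun l hl => ?_⟩
  have h5 := ha l hl
  have h6 : K * (l ^ k * Real.exp (-(c * l))) * Real.exp (c * l) ≤ 1 * Real.exp (c * l) :=
    mul_le_mul_of_nonneg_right h5 (Real.exp_pos _).le
  have h7 : K * (l ^ k * Real.exp (-(c * l))) * Real.exp (c * l) = K * l ^ k := by
    have : Real.exp (-(c * l)) * Real.exp (c * l) = 1 := by rw [← Real.exp_add]; simp
    calc K * (l ^ k * Real.exp (-(c * l))) * Real.exp (c * l) =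
        K * l ^ k * (Real.exp (-(c * l)) * Real.exp (c * l)) := by ring
      _ = _ := by rw [this, mul_one]
  rw [h7, one_mul] at h6
  exact h6

theorem MM_pos (l : ℝ) : 0 < MM l := primorial_pos _

theorem MM_squarefree (l : ℝ) : Squarefree (MM l) := by
  unfold MM primorial
  refine (Nat.squarefree_iff_prime_squarefree).mpr ?_
  intro p hp hpp
  have h1 : ∀ s : Finset ℕ, (∀ q ∈ s, q.Prime) → ¬ p * p ∣ ∏ q ∈ s, q := by
    intro s
    induction s using Finset.induction_on with
    | empty =>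
      intro _ h
      simp only [prod_empty, Nat.dvd_one] at h
      have := hp.one_lt
      nlinarith
    | insert a s ha ih =>
      intro hs h
      rw [prod_insert ha] at h
      have ha' : a.Prime := hs a (mem_insert_self _ _)
      have hs' : ∀ q ∈ s, q.Prime := fun q hq => hs q (mem_insert_of_mem hq)
      by_cases hpa : p = a
      · subst hpa
        have h2 : p ∣ ∏ q ∈ s, q := Nat.dvd_of_mul_dvd_mul_left hp.pos h
        obtain ⟨q, hq, hpq⟩ := (hp.prime.dvd_finset_prod_iff _).mp h2
        have := (Nat.prime_dvd_prime_iff_eq hp (hs' q hq)).mp hpq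
        subst this
        exact ha hq
      · have hcop : (p * p).Coprime a := by
          have := (Nat.coprime_primes hp ha').mpr hpa
          exact Nat.Coprime.mul_left this this
        exact ih hs' (hcop.dvd_of_dvd_mul_left h)
  exact h1 _ (fun q hq => (mem_filter.mp hq).2) hpp

theorem aa_nonneg (M s : ℕ) : 0 ≤ aa M s := by
  unfold aa
  have := ArithmeticFunction.vonMangoldt_nonneg (n := M * s + 1)
  positivity

theorem aa_le (M s : ℕ) : aa M s ≤ Real.log ((M * s + 1 : ℕ) : ℝ) := by
  unfold aa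
  have h1 : (Nat.totient M : ℝ) / M ≤ 1 := by
    rcases Nat.eq_zero_or_pos M with h | h
    · subst h; simp
    · rw [div_le_one (by exact_mod_cast h)]
      exact_mod_cast Nat.totient_le M
  have h2 := ArithmeticFunction.vonMangoldt_nonneg (n := M * s + 1)
  calc (Nat.totient M : ℝ) / M * ArithmeticFunction.vonMangoldt (M * s + 1) ≤
      1 * ArithmeticFunction.vonMangoldt (M * s + 1) := mul_le_mul_of_nonneg_right h1 h2
    _ = ArithmeticFunction.vonMangoldt (M * s + 1) := one_mul _
    _ ≤ _ := ArithmeticFunction.vonMangoldt_le_log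

theorem QQ_le (l : ℝ) : (QQ l : ℝ) ≤ Real.exp (l / 100) := Nat.floor_le (Real.exp_pos _).le

theorem QQ_ge (l : ℝ) (hl : 0 ≤ l) : Real.exp (l / 100) / 2 ≤ QQ l := by
  have h1 : 1 ≤ Real.exp (l / 100) := Real.one_le_exp (by positivity)
  have h2 := Nat.lt_floor_add_one (Real.exp (l / 100))
  unfold QQ
  have h3 : (1 : ℝ) ≤ (⌊Real.exp (l / 100)⌋₊ : ℝ) := by
    exact_mod_cast Nat.le_floor (by simpa using h1)
  linarith

theorem VV_le (l : ℝ) : (VV l : ℝ) ≤ Real.exp (l ^ 40 / 2 - l / 8) := Nat.floor_le (Real.exp_pos _).le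

theorem one_le_QQ (l : ℝ) (hl : 0 ≤ l) : 1 ≤ QQ l :=
  Nat.le_floor (by simpa using Real.one_le_exp (show (0:ℝ) ≤ l / 100 by positivity))

theorem log_QQ_le (l : ℝ) (hl : 0 ≤ l) : Real.log (QQ l) ≤ l := by
  have h1 : 0 < (QQ l : ℝ) := by exact_mod_cast one_le_QQ l hl
  calc Real.log (QQ l) ≤ Real.log (Real.exp (l / 100)) := Real.log_le_log h1 (QQ_le l)
    _ = l / 100 := Real.log_exp _
    _ ≤ l := by linarith

end Pool.Agent.N728.SP
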