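import Mathlib
import Pool.Agent.N728.SP.Tools

/-! Project SP: the lower bound for the weighted number of solutions. -/

set_option autoImplicit false

namespace Pool.Agent.N728.SP

open Finset Pool.Agent.H410R2

theorem bb_nonneg (l : ℝ) (x y : ℕ) : 0 ≤ bb l x y := by
  unfold bb
  have := ArithmeticFunction.vonMangoldt_nonneg (n := MM l ^ 3 * x * y + 1)
  have h2 : 0 ≤ max 0 (Real.log (XX l / ((MM l ^ 3 * x * y + 1 : ℕ) : ℝ))) := le_max_left _ _
  positivity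

theorem bb_le (l : ℝ) (hl : 0 ≤ l) (x y : ℕ) : bb l x y ≤ l ^ 80 := by
  unfold bb
  set n := MM l ^ 3 * x * y + 1 with hn
  have hn1 : 1 ≤ n := by omega
  have hnR : (1 : ℝ) ≤ n := by exact_mod_cast hn1
  have hX : 0 < XX l := Real.exp_pos _
  have hlogX : Real.log (XX l) = l ^ 40 := Real.log_exp _
  have h40 : 0 ≤ l ^ 40 := by positivity
  have h1 : (Nat.totient (MM l ^ 3 * x) : ℝ) / ((MM l ^ 3 * x : ℕ) : ℝ) ≤ 1 := by
    apply div_le_one_of_le₀ _ (Nat.cast_nonneg _)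
    exact_mod_cast Nat.totient_le _
  have h0 : 0 ≤ ArithmeticFunction.vonMangoldt n := ArithmeticFunction.vonMangoldt_nonneg
  have h2 : ArithmeticFunction.vonMangoldt n * max 0 (Real.log (XX l / (n : ℝ))) ≤ l ^ 80 := by
    by_cases hc : (n : ℝ) ≤ XX l
    · have e1 : ArithmeticFunction.vonMangoldt n ≤ l ^ 40 := by
        rw [← hlogX]
        exact ArithmeticFunction.vonMangoldt_le_log.trans (Real.log_le_log (by linarith) hc)
      have e2 : max 0 (Real.log (XX l / (n : ℝ))) ≤ l ^ 40 := by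
        apply max_le h40
        rw [Real.log_div hX.ne' (by linarith), hlogX]
        have := Real.log_nonneg hnR
        linarith
      calc _ ≤ l ^ 40 * l ^ 40 := mul_le_mul e1 e2 (le_max_left _ _) h40
        _ = _ := by ring
    · push Not at hc
      have e2 : max 0 (Real.log (XX l / (n : ℝ))) = 0 := by
        apply max_eq_left
        apply Real.log_nonpos (by positivity)
        rw [div_le_one (by linarith)]
        exact hc.le
      rw [e2, mul_zero]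
      positivity
  have h3 : 0 ≤ ArithmeticFunction.vonMangoldt n * max 0 (Real.log (XX l / (n : ℝ))) :=
    mul_nonneg h0 (le_max_left _ _)
  calc _ ≤ 1 * (ArithmeticFunction.vonMangoldt n * max 0 (Real.log (XX l / (n : ℝ)))) :=
        mul_le_mul_of_nonneg_right h1 h3
    _ ≤ _ := by linarith

theorem cs_double (s t : Finset ℕ) (f g : ℕ → ℕ → ℝ) :
    (∑ x ∈ s, ∑ y ∈ t, f x y * g x y) ^ 2 ≤
      (∑ x ∈ s, ∑ y ∈ t, f x y ^ 2) * ∑ x ∈ s, ∑ y ∈ t, g x y ^ 2 := by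
  have h := sum_mul_sq_le_sq_mul_sq (s ×ˢ t) (fun p => f p.1 p.2) (fun p => g p.1 p.2)
  rw [sum_product, sum_product, sum_product] at h
  exact h

theorem t_LB (hMT : S_MT) (hVR : S_VR) (hK : S_K) (hS : S_SIZ) : S_LB := by
  obtain ⟨l1, h1⟩ := hS
  obtain ⟨l2, h2⟩ := hMT
  obtain ⟨C, l3, h3⟩ := hVR
  obtain ⟨l4, h4⟩ := hK (C + 162)
  obtain ⟨a1, ha1⟩ := pow_le_exp 512 (1 / 50) 160 (by norm_num)
  refine ⟨max (max (max l1 l2) (max l3 l4)) (max a1 512), ?_⟩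
  intro l hl hSC
  have hl1 : l1 ≤ l := le_trans (by simp) hl
  have hl2 : l2 ≤ l := le_trans (by simp) hl
  have hl3 : l3 ≤ l := le_trans (by simp) hl
  have hl4 : l4 ≤ l := le_trans (by simp) hl
  have hla1 : a1 ≤ l := le_trans (by simp) hl
  have hl5 : 512 ≤ l := le_trans (by simp) hl
  have hl0 : 0 ≤ l := by linarith
  have hl0' : 0 < l := by linarith
  have hl1' : 1 ≤ l := by linarith
  obtain ⟨-, hMle, hMQ, hQV, hVY, hMY, hVge, -, hZ⟩ := h1 l hl1
  have hmt := h2 l hl2 hSC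
  have hvr := h3 l hl3 hSC
  have hk := h4 l hl4
  have hp1 := ha1 l hla1
  have hM := MM_pos l
  have hQ1 := one_le_QQ l hl0
  have hV1 : 1 ≤ VV l := by
    have : 1 ≤ QQ l ^ 2 := Nat.one_le_pow _ _ hQ1
    omega
  set M := MM l with hMd
  set V := VV l with hVd
  set Y := YY l with hYd
  set Q := QQ l with hQd
  set K : ℝ := (M.divisors.card : ℝ) with hKd
  have hVR : (0 : ℝ) < V := by exact_mod_cast hV1
  have hMR : (0 : ℝ) < M := by exact_mod_cast hM
  have hXpos : 0 < XX l := Real.exp_pos _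
  have hKpos : 0 < K := lt_of_lt_of_le (by positivity) hk
  have hVYX : (V : ℝ) * Y ≤ XX l / (M : ℝ) ^ 3 := by
    have e1 : (Y : ℝ) ≤ XX l / ((M : ℝ) ^ 3 * V) := Nat.floor_le (by positivity)
    calc (V : ℝ) * Y ≤ V * (XX l / ((M : ℝ) ^ 3 * V)) := by gcongr
      _ = _ := by field_simp
  -- decomposition
  have hsplit : ∑ x ∈ Ioc V (2 * V), ∑ y ∈ Icc 1 Y, bb l x y * ∑ m ∈ M.divisors, aa M (m * x + M / m * y) =
      ∑ m ∈ M.divisors, ∑ x ∈ Ioc V (2 * V), ∑ y ∈ Icc 1 Y, bb l x y * gg M Q (m * x + M / m * y) +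
      ∑ x ∈ Ioc V (2 * V), ∑ y ∈ Icc 1 Y, bb l x y * ∑ m ∈ M.divisors, ff M Q (m * x + M / m * y) := by
    have e1 : ∑ m ∈ M.divisors, ∑ x ∈ Ioc V (2 * V), ∑ y ∈ Icc 1 Y, bb l x y * gg M Q (m * x + M / m * y) =
        ∑ x ∈ Ioc V (2 * V), ∑ y ∈ Icc 1 Y, bb l x y * ∑ m ∈ M.divisors, gg M Q (m * x + M / m * y) := by
      rw [sum_comm]
      refine sum_congr rfl fun x _ => ?_
      rw [sum_comm]
      refine sum_congr rfl fun y _ => ?_
      rw [mul_sum]
    rw [e1, ← sum_add_distrib]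
    refine sum_congr rfl fun x _ => ?_
    rw [← sum_add_distrib]
    refine sum_congr rfl fun y _ => ?_
    rw [← mul_add, ← sum_add_distrib]
    congr 1
    refine sum_congr rfl fun m _ => ?_
    unfold ff
    ring
  rw [hsplit]
  have hmain : K * (XX l / (8 * (M : ℝ) ^ 3)) ≤
      ∑ m ∈ M.divisors, ∑ x ∈ Ioc V (2 * V), ∑ y ∈ Icc 1 Y, bb l x y * gg M Q (m * x + M / m * y) := by
    calc K * (XX l / (8 * (M : ℝ) ^ 3)) = ∑ m ∈ M.divisors, XX l / (8 * (M : ℝ) ^ 3) := by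
          rw [sum_const, nsmul_eq_mul]
      _ ≤ _ := sum_le_sum fun m hm => hmt m hm
  -- Cauchy-Schwarz
  set E := ∑ x ∈ Ioc V (2 * V), ∑ y ∈ Icc 1 Y, bb l x y * ∑ m ∈ M.divisors, ff M Q (m * x + M / m * y) with hE
  have hcs : E ^ 2 ≤ (∑ x ∈ Ioc V (2 * V), ∑ y ∈ Icc 1 Y, bb l x y ^ 2) *
      ∑ x ∈ Ioc V (2 * V), ∑ y ∈ Icc 1 Y, (∑ m ∈ M.divisors, ff M Q (m * x + M / m * y)) ^ 2 :=
    cs_double _ _ _ _
  have hb2 : ∑ x ∈ Ioc V (2 * V), ∑ y ∈ Icc 1 Y, bb l x y ^ 2 ≤ (V : ℝ) * Y * l ^ 160 := by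
    calc ∑ x ∈ Ioc V (2 * V), ∑ y ∈ Icc 1 Y, bb l x y ^ 2 ≤ ∑ x ∈ Ioc V (2 * V), ∑ y ∈ Icc 1 Y, l ^ 160 := by
          refine sum_le_sum fun x _ => sum_le_sum fun y _ => ?_
          calc bb l x y ^ 2 ≤ (l ^ 80) ^ 2 := pow_le_pow_left₀ (bb_nonneg l x y) (bb_le l hl0 x y) 2
            _ = _ := by ring
      _ = _ := by
          simp only [sum_const, nsmul_eq_mul, Nat.card_Ioc, Nat.card_Icc]
          have : 2 * V - V = V := by omega
          rw [this, Nat.add_sub_cancel]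
          ring
  have hE2 : E ^ 2 ≤ (K * (XX l / (16 * (M : ℝ) ^ 3))) ^ 2 := by
    have hVY0 : 0 ≤ (V : ℝ) * Y := by positivity
    have e1 : E ^ 2 ≤ ((V : ℝ) * Y * l ^ 160) *
        (K * ((V : ℝ) * Y * l ^ C) + K ^ 2 * ((V : ℝ) * Y * Real.exp (-(l / 50)))) := by
      refine hcs.trans (mul_le_mul hb2 hvr ?_ (by positivity))
      exact sum_nonneg fun x _ => sum_nonneg fun y _ => sq_nonneg _
    have e2 : ((V : ℝ) * Y * l ^ 160) *
        (K * ((V : ℝ) * Y * l ^ C) + K ^ 2 * ((V : ℝ) * Y * Real.exp (-(l / 50)))) =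
        ((V : ℝ) * Y) ^ 2 * (K * l ^ (160 + C) + K ^ 2 * (l ^ 160 * Real.exp (-(l / 50)))) := by
      rw [pow_add]; ring
    have e3 : K * l ^ (160 + C) ≤ K ^ 2 / 512 := by
      have f1 : 512 * l ^ (160 + C) ≤ K := by
        refine le_trans ?_ hk
        have : l ^ (C + 162) = (l * l) * l ^ (160 + C) := by ring
        rw [this]
        have f2 : 512 ≤ l * l := by nlinarith
        gcongr
      have f3 : K * (512 * l ^ (160 + C)) ≤ K * K := by gcongr
      have f4 : K ^ 2 = K * K := by ring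
      rw [f4]
      linarith
    have e4 : K ^ 2 * (l ^ 160 * Real.exp (-(l / 50))) ≤ K ^ 2 / 512 := by
      have f1 : l ^ 160 * Real.exp (-(l / 50)) ≤ 1 / 512 := by
        rw [Real.exp_neg, ← div_eq_mul_inv, div_le_iff₀ (Real.exp_pos _)]
        have : Real.exp (1 / 50 * l) = Real.exp (l / 50) := by congr 1; ring
        rw [this] at hp1
        linarith
      calc K ^ 2 * (l ^ 160 * Real.exp (-(l / 50))) ≤ K ^ 2 * (1 / 512) := by gcongr
        _ = _ := by ring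
    have e5 : ((V : ℝ) * Y) ^ 2 * (K * l ^ (160 + C) + K ^ 2 * (l ^ 160 * Real.exp (-(l / 50)))) ≤
        (XX l / (M : ℝ) ^ 3) ^ 2 * (K ^ 2 / 256) := by
      have f0 : 0 ≤ K * l ^ (160 + C) + K ^ 2 * (l ^ 160 * Real.exp (-(l / 50))) := by positivity
      refine mul_le_mul (pow_le_pow_left₀ hVY0 hVYX 2) (by linarith) f0 (by positivity)
    have e6 : (K * (XX l / (16 * (M : ℝ) ^ 3))) ^ 2 = (XX l / (M : ℝ) ^ 3) ^ 2 * (K ^ 2 / 256) := by
      field_simp
      norm_num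
    rw [e6]
    rw [e2] at e1
    exact e1.trans e5
  have hE3 : |E| ≤ K * (XX l / (16 * (M : ℝ) ^ 3)) := abs_le_of_sq_le_sq hE2 (by positivity)
  have hE4 := neg_abs_le E
  have hsum : K * (XX l / (8 * (M : ℝ) ^ 3)) = K * (XX l / (16 * (M : ℝ) ^ 3)) + K * (XX l / (16 * (M : ℝ) ^ 3)) := by
    field_simp
    norm_num
  linarith

end Pool.Agent.N728.SP
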