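import Mathlib
import Pool.Agent.N728.SP.LB

/-! Project SP: conclusion. -/

set_option autoImplicit false

namespace Pool.Agent.N728.SP

open Finset Pool.Agent.H410R2

/-- proper prime powers -/
def PPw (n : ℕ) : Prop := IsPrimePow n ∧ ¬ n.Prime

theorem primePow_of_ne_zero {n : ℕ} (h : ArithmeticFunction.vonMangoldt n ≠ 0) : IsPrimePow n :=
  ArithmeticFunction.vonMangoldt_ne_zero_iff.mp h

theorem count_inj {Y N : ℕ} (g : ℕ → ℕ) (P : ℕ → Prop) [DecidablePred P] (hg : ∀ y y', g y = g y' → y = y')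
    (S : Finset ℕ) (hS : S ⊆ Icc 1 Y) (h1 : ∀ y ∈ S, P (g y) ∧ 1 ≤ g y ∧ g y ≤ N) :
    S.card ≤ ((Icc 1 N).filter P).card := by
  refine card_le_card_of_injOn g ?_ (fun a _ b _ hab => hg a b hab)
  intro y hy
  obtain ⟨h2, h3, h4⟩ := h1 y hy
  simp only [coe_filter, Set.mem_setOf_eq, mem_Icc]
  exact ⟨⟨h3, h4⟩, h2⟩

open Classical in
theorem t_END (hGS : S_GS) (hSC : S_SC) (hLB : S_LB) (hK : S_K) (hS : S_SIZ) (hPC : S_PC) : S_END := by
  intro a
  by_contra hno
  push Not at hno
  obtain ⟨d, hd0, hd2, hGS⟩ := hGS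
  obtain ⟨l1, h1⟩ := hS
  obtain ⟨l2, h2⟩ := hLB
  obtain ⟨l3, h3⟩ := hSC d hd0 hd2
  obtain ⟨l4, h4⟩ := hK 1
  obtain ⟨a1, ha1⟩ := pow_le_exp 113 (1 / 10) 160 (by norm_num)
  obtain ⟨l, hl, hZF⟩ := hGS (max (max (max l1 l2) (max l3 l4)) (max a1 (max (a + 1) 512)))
  have hl1 : l1 ≤ l := le_trans (by simp) hl
  have hl2 : l2 ≤ l := le_trans (by simp) hl
  have hl3 : l3 ≤ l := le_trans (by simp) hl
  have hl4 : l4 ≤ l := le_trans (by simp) hl
  have hla1 : a1 ≤ l := le_trans (by simp) hl
  have hla : (a : ℝ) + 1 ≤ l := le_trans (by simp) hl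
  have hl5 : 512 ≤ l := le_trans (by simp) hl
  have hl0 : 0 ≤ l := by linarith
  have hl0' : 0 < l := by linarith
  have hl1' : 1 ≤ l := by linarith
  obtain ⟨-, hMle, hMQ, hQV, hVY, hMY, hVge, -, hZ⟩ := h1 l hl1
  have hSCl := h3 l hl3 hZF
  have hlb := h2 l hl2 hSCl
  have hk := h4 l hl4
  have hp1 := ha1 l hla1
  have hM := MM_pos l
  have hQ1 := one_le_QQ l hl0
  have hVle := VV_le l
  have hV1 : 1 ≤ VV l := by
    have : 1 ≤ QQ l ^ 2 := Nat.one_le_pow _ _ hQ1
    omega
  have hMa : a < MM l := by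
    have e1 : (MM l).divisors.card ≤ MM l := Nat.card_divisors_le_self _
    have e2 : ((MM l).divisors.card : ℝ) ≤ MM l := by exact_mod_cast e1
    rw [pow_one] at hk
    have e3 : (a : ℝ) + 1 ≤ MM l := by linarith
    exact_mod_cast e3
  set M := MM l with hMd
  set V := VV l with hVd
  set Y := YY l with hYd
  have hVR : (0 : ℝ) < V := by exact_mod_cast hV1
  have hMR : (0 : ℝ) < M := by exact_mod_cast hM
  have hXpos : 0 < XX l := Real.exp_pos _
  have hX1 : 1 ≤ XX l := Real.one_le_exp (by positivity)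
  have hlogX : Real.log (XX l) = l ^ 40 := Real.log_exp _
  set K : ℝ := (M.divisors.card : ℝ) with hKd
  have hKpos : 0 < K := lt_of_lt_of_le (by positivity) hk
  set N : ℕ := ⌊XX l⌋₊ with hN
  have hN1 : 1 ≤ N := Nat.le_floor (by simpa using hX1)
  have hNX : (N : ℝ) ≤ XX l := Nat.floor_le hXpos.le
  set P : ℕ := ((Icc 1 N).filter (fun n => IsPrimePow n ∧ ¬ n.Prime)).card with hP
  have hPle : (P : ℝ) ≤ Real.exp (l ^ 40 / 2) * (2 * l ^ 40 + 1) := by
    refine (hPC N hN1).trans ?_
    have e1 : Real.sqrt N ≤ Real.exp (l ^ 40 / 2) := by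
      rw [Real.sqrt_le_left (Real.exp_pos _).le, ← Real.exp_nat_mul]
      refine hNX.trans (le_of_eq ?_)
      unfold XX
      congr 1
      push_cast
      ring
    have e2 : Real.log N ≤ l ^ 40 := by
      rw [← hlogX]
      exact Real.log_le_log (by exact_mod_cast hN1) hNX
    have e3 : 0 ≤ Real.log N := Real.log_natCast_nonneg _
    gcongr
  -- the pointwise bound
  set i1 : ℕ → ℕ → ℕ → ℝ := fun m x y => if m * x = M / m * y then 1 else 0 with hi1
  set i2 : ℕ → ℕ → ℕ → ℝ := fun m x y => if PPw (M * (m * x + M / m * y) + 1) then 1 else 0 with hi2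
  set i3 : ℕ → ℕ → ℝ := fun x y => if PPw (M ^ 3 * x * y + 1) ∧ M ^ 3 * x * y + 1 ≤ N then 1 else 0 with hi3
  have hsle : ∀ m ∈ M.divisors, ∀ x ∈ Ioc V (2 * V), ∀ y ∈ Icc 1 Y, m * x + M / m * y ≤ 4 * M * Y := by
    intro m hm x hx y hy
    rw [mem_Ioc] at hx
    rw [mem_Icc] at hy
    have hmM : m ≤ M := Nat.le_of_dvd hM (Nat.dvd_of_mem_divisors hm)
    have hmM' : M / m ≤ M := Nat.div_le_self _ _
    have f1 : m * x ≤ M * (2 * V) := Nat.mul_le_mul hmM hx.2
    have f2 : M / m * y ≤ M * Y := Nat.mul_le_mul hmM' hy.2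
    nlinarith
  have hnle : ∀ m ∈ M.divisors, ∀ x ∈ Ioc V (2 * V), ∀ y ∈ Icc 1 Y,
      ((M * (m * x + M / m * y) + 1 : ℕ) : ℝ) ≤ Real.exp (l ^ 40 / 2 + l / 8) := by
    intro m hm x hx y hy
    refine le_trans ?_ hZ
    have h := hsle m hm x hx y hy
    have h' : ((m * x + M / m * y : ℕ) : ℝ) ≤ 4 * M * Y := by exact_mod_cast h
    have : ((M * (m * x + M / m * y) + 1 : ℕ) : ℝ) = M * ((m * x + M / m * y : ℕ) : ℝ) + 1 := by push_cast; ring
    rw [this]
    gcongr
  have hl40 : l ≤ l ^ 40 := le_self_pow₀ hl1' (by norm_num)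
  have hpt : ∀ m ∈ M.divisors, ∀ x ∈ Ioc V (2 * V), ∀ y ∈ Icc 1 Y,
      bb l x y * aa M (m * x + M / m * y) ≤ l ^ 120 * (i1 m x y + i2 m x y + i3 x y) := by
    intro m hm x hx y hy
    have hb0 := bb_nonneg l x y
    have hb1 := bb_le l hl0 x y
    have ha0 := aa_nonneg M (m * x + M / m * y)
    have ha1 : aa M (m * x + M / m * y) ≤ l ^ 40 := by
      refine (aa_le M _).trans ?_
      rw [Real.log_le_iff_le_exp (by exact_mod_cast Nat.succ_pos _)]
      refine (hnle m hm x hx y hy).trans (Real.exp_le_exp.mpr ?_)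
      linarith
    have hprod : bb l x y * aa M (m * x + M / m * y) ≤ l ^ 120 := by
      calc _ ≤ l ^ 80 * l ^ 40 := mul_le_mul hb1 ha1 ha0 (by positivity)
        _ = _ := by ring
    have hi1n : 0 ≤ i1 m x y := by rw [hi1]; dsimp only; split_ifs <;> norm_num
    have hi2n : 0 ≤ i2 m x y := by rw [hi2]; dsimp only; split_ifs <;> norm_num
    have hi3n : 0 ≤ i3 x y := by rw [hi3]; dsimp only; split_ifs <;> norm_num
    have hl120 : 0 ≤ l ^ 120 := by positivity
    by_cases hA : m * x = M / m * y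
    · have e : i1 m x y = 1 := by rw [hi1]; simp [hA]
      have : l ^ 120 * 1 ≤ l ^ 120 * (i1 m x y + i2 m x y + i3 x y) := by
        apply mul_le_mul_of_nonneg_left _ hl120
        linarith
      linarith
    by_cases hB : PPw (M * (m * x + M / m * y) + 1)
    · have e : i2 m x y = 1 := by rw [hi2]; simp [hB]
      have : l ^ 120 * 1 ≤ l ^ 120 * (i1 m x y + i2 m x y + i3 x y) := by
        apply mul_le_mul_of_nonneg_left _ hl120
        linarith
      linarith
    by_cases hC : PPw (M ^ 3 * x * y + 1) ∧ M ^ 3 * x * y + 1 ≤ N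
    · have e : i3 x y = 1 := by rw [hi3]; simp [hC]
      have : l ^ 120 * 1 ≤ l ^ 120 * (i1 m x y + i2 m x y + i3 x y) := by
        apply mul_le_mul_of_nonneg_left _ hl120
        linarith
      linarith
    -- now the product vanishes
    have hzero : bb l x y * aa M (m * x + M / m * y) = 0 := by
      by_contra hne
      have hbne : bb l x y ≠ 0 := left_ne_zero_of_mul hne
      have hane : aa M (m * x + M / m * y) ≠ 0 := right_ne_zero_of_mul hne
      have hn : IsPrimePow (M * (m * x + M / m * y) + 1) := by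
        apply primePow_of_ne_zero
        intro h0
        apply hane
        unfold aa
        rw [h0, mul_zero]
      have hnp : (M * (m * x + M / m * y) + 1).Prime := by
        by_contra h
        exact hB ⟨hn, h⟩
      have hq : IsPrimePow (M ^ 3 * x * y + 1) := by
        apply primePow_of_ne_zero
        intro h0
        apply hbne
        unfold bb
        rw [h0, zero_mul, mul_zero]
      have hqX : M ^ 3 * x * y + 1 ≤ N := by
        by_contra h
        push Not at h
        apply hbne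
        unfold bb
        have e1 : XX l < ((M ^ 3 * x * y + 1 : ℕ) : ℝ) := by
          rw [hN] at h
          exact (Nat.floor_lt hXpos.le).mp h
        have e2 : max 0 (Real.log (XX l / ((M ^ 3 * x * y + 1 : ℕ) : ℝ))) = 0 := by
          apply max_eq_left
          apply Real.log_nonpos (by positivity)
          rw [div_le_one (by linarith)]
          exact e1.le
        rw [e2, mul_zero, mul_zero]
      have hqp : (M ^ 3 * x * y + 1).Prime := by
        by_contra h
        exact hC ⟨⟨hq, h⟩, hqX⟩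
      -- the solution
      have hmd := Nat.dvd_of_mem_divisors hm
      have hm0 : 0 < m := Nat.pos_of_dvd_of_pos hmd hM
      have hm0' : 0 < M / m := Nat.div_pos (Nat.le_of_dvd hM hmd) hm0
      have hmm : m * (M / m) = M := Nat.mul_div_cancel' hmd
      rw [mem_Ioc] at hx
      rw [mem_Icc] at hy
      have hx0 : 0 < x := by omega
      have hy0 : 0 < y := hy.1
      have hu : M ≤ M * m * x := by
        calc M = M * 1 * 1 := by ring
          _ ≤ M * m * x := Nat.mul_le_mul (Nat.mul_le_mul_left _ hm0) hx0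
      have hv : M ≤ M * (M / m) * y := by
        calc M = M * 1 * 1 := by ring
          _ ≤ M * (M / m) * y := Nat.mul_le_mul (Nat.mul_le_mul_left _ hm0') hy0
      have hsum : M * m * x + M * (M / m) * y + 1 = M * (m * x + M / m * y) + 1 := by ring
      have hmul : (M * m * x) * (M * (M / m) * y) + 1 = M ^ 3 * x * y + 1 := by
        have : (M * m * x) * (M * (M / m) * y) = M * M * (m * (M / m)) * x * y := by ring
        rw [this, hmm]
        ring
      rcases lt_trichotomy (M * m * x) (M * (M / m) * y) with h | h | h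
      · have h5 := hno (M * (M / m) * y) (M * m * x) h (by omega)
        apply h5
        · rw [add_comm (M * (M / m) * y), hsum]; exact hnp
        · rw [mul_comm (M * (M / m) * y), hmul]; exact hqp
      · apply hA
        have : M * (m * x) = M * (M / m * y) := by linarith
        exact Nat.eq_of_mul_eq_mul_left hM this
      · have h5 := hno (M * m * x) (M * (M / m) * y) h (by omega)
        apply h5
        · rw [hsum]; exact hnp
        · rw [hmul]; exact hqp
    rw [hzero]
    exact mul_nonneg hl120 (by linarith)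
  -- sums of the indicators
  have hP0 : (0 : ℝ) ≤ P := Nat.cast_nonneg _
  have hs1 : ∀ m ∈ M.divisors, ∀ x ∈ Ioc V (2 * V), ∑ y ∈ Icc 1 Y, i1 m x y ≤ 1 := by
    intro m hm x hx
    have hmd := Nat.dvd_of_mem_divisors hm
    have hm0 : 0 < m := Nat.pos_of_dvd_of_pos hmd hM
    have hm0' : 0 < M / m := Nat.div_pos (Nat.le_of_dvd hM hmd) hm0
    rw [hi1]
    simp only
    rw [← sum_filter, sum_const, nsmul_eq_mul, mul_one]
    have : ((Icc 1 Y).filter (fun y => m * x = M / m * y)).card ≤ 1 := by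
      rw [card_le_one]
      intro y hy y' hy'
      rw [mem_filter] at hy hy'
      exact Nat.eq_of_mul_eq_mul_left hm0' (hy.2.symm.trans hy'.2)
    exact_mod_cast this
  have hs2 : ∀ m ∈ M.divisors, ∀ x ∈ Ioc V (2 * V), ∑ y ∈ Icc 1 Y, i2 m x y ≤ P := by
    intro m hm x hx
    have hmd := Nat.dvd_of_mem_divisors hm
    have hm0 : 0 < m := Nat.pos_of_dvd_of_pos hmd hM
    have hm0' : 0 < M / m := Nat.div_pos (Nat.le_of_dvd hM hmd) hm0
    rw [hi2]
    simp only
    rw [← sum_filter, sum_const, nsmul_eq_mul, mul_one]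
    have : ((Icc 1 Y).filter (fun y => PPw (M * (m * x + M / m * y) + 1))).card ≤ P := by
      apply count_inj (Y := Y) (fun y => M * (m * x + M / m * y) + 1) (fun n => IsPrimePow n ∧ ¬ n.Prime)
      · intro y y' h
        have h' : M * (m * x + M / m * y) + 1 = M * (m * x + M / m * y') + 1 := h
        have h6 : m * x + M / m * y = m * x + M / m * y' :=
          Nat.eq_of_mul_eq_mul_left hM (Nat.succ_injective h')
        have h7 : M / m * y = M / m * y' := Nat.add_left_cancel h6
        exact Nat.eq_of_mul_eq_mul_left hm0' h7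
      · exact filter_subset _ _
      · intro y hy
        rw [mem_filter] at hy
        refine ⟨hy.2, by omega, ?_⟩
        apply Nat.le_floor
        refine (hnle m hm x hx y hy.1).trans ?_
        unfold XX
        apply Real.exp_le_exp.mpr
        linarith
    exact_mod_cast this
  have hs3 : ∀ x ∈ Ioc V (2 * V), ∑ y ∈ Icc 1 Y, i3 x y ≤ P := by
    intro x hx
    rw [mem_Ioc] at hx
    have hx0 : 0 < x := by omega
    rw [hi3]
    simp only
    rw [← sum_filter, sum_const, nsmul_eq_mul, mul_one]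
    have : ((Icc 1 Y).filter (fun y => PPw (M ^ 3 * x * y + 1) ∧ M ^ 3 * x * y + 1 ≤ N)).card ≤ P := by
      apply count_inj (Y := Y) (fun y => M ^ 3 * x * y + 1) (fun n => IsPrimePow n ∧ ¬ n.Prime)
      · intro y y' h
        have h' : M ^ 3 * x * y + 1 = M ^ 3 * x * y' + 1 := h
        have h6 : M ^ 3 * x * y = M ^ 3 * x * y' := Nat.succ_injective h'
        exact Nat.eq_of_mul_eq_mul_left (by positivity) h6
      · exact filter_subset _ _
      · intro y hy
        rw [mem_filter] at hy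
        exact ⟨hy.2.1, by omega, hy.2.2⟩
    exact_mod_cast this
  -- upper bound
  have hupper : ∑ x ∈ Ioc V (2 * V), ∑ y ∈ Icc 1 Y, bb l x y * ∑ m ∈ M.divisors, aa M (m * x + M / m * y) ≤
      K * (V * (l ^ 120 * (1 + 2 * P))) := by
    have e1 : ∑ x ∈ Ioc V (2 * V), ∑ y ∈ Icc 1 Y, bb l x y * ∑ m ∈ M.divisors, aa M (m * x + M / m * y) =
        ∑ m ∈ M.divisors, ∑ x ∈ Ioc V (2 * V), ∑ y ∈ Icc 1 Y, bb l x y * aa M (m * x + M / m * y) := by
      symm
      rw [sum_comm]
      refine sum_congr rfl fun x _ => ?_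
      rw [sum_comm]
      refine sum_congr rfl fun y _ => ?_
      rw [mul_sum]
    rw [e1]
    calc ∑ m ∈ M.divisors, ∑ x ∈ Ioc V (2 * V), ∑ y ∈ Icc 1 Y, bb l x y * aa M (m * x + M / m * y)
        ≤ ∑ m ∈ M.divisors, ∑ x ∈ Ioc V (2 * V), (l ^ 120 * (1 + 2 * P)) := by
          refine sum_le_sum fun m hm => sum_le_sum fun x hx => ?_
          calc ∑ y ∈ Icc 1 Y, bb l x y * aa M (m * x + M / m * y)
              ≤ ∑ y ∈ Icc 1 Y, l ^ 120 * (i1 m x y + i2 m x y + i3 x y) :=
                sum_le_sum fun y hy => hpt m hm x hx y hy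
            _ = l ^ 120 * (∑ y ∈ Icc 1 Y, i1 m x y + ∑ y ∈ Icc 1 Y, i2 m x y + ∑ y ∈ Icc 1 Y, i3 x y) := by
                rw [← mul_sum, sum_add_distrib, sum_add_distrib]
            _ ≤ l ^ 120 * (1 + 2 * P) := by
                apply mul_le_mul_of_nonneg_left _ (by positivity)
                have := hs1 m hm x hx
                have := hs2 m hm x hx
                have := hs3 x hx
                linarith
      _ = _ := by
          simp only [sum_const, nsmul_eq_mul, Nat.card_Ioc]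
          have : 2 * V - V = V := by omega
          rw [this]
  have hfin := hlb.trans hupper
  have hfin2 : XX l / (16 * (M : ℝ) ^ 3) ≤ V * (l ^ 120 * (1 + 2 * P)) := le_of_mul_le_mul_left hfin hKpos
  -- numerical contradiction
  have hM3 : (M : ℝ) ^ 3 ≤ Real.exp (3 * l / 1400) := by
    calc (M : ℝ) ^ 3 ≤ (Real.exp (l / 1400)) ^ 3 := by gcongr
      _ = _ := by rw [← Real.exp_nat_mul]; congr 1; push_cast; ring
  have hl40' : 1 ≤ l ^ 40 := one_le_pow₀ hl1'
  have hexp1 : 1 ≤ Real.exp (l ^ 40 / 2) := Real.one_le_exp (by positivity)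
  have h1P : 1 + 2 * (P : ℝ) ≤ 7 * l ^ 40 * Real.exp (l ^ 40 / 2) := by
    nlinarith
  have hup2 : (V : ℝ) * (l ^ 120 * (1 + 2 * P)) ≤ 7 * l ^ 160 * (XX l * Real.exp (-(l / 8))) := by
    calc (V : ℝ) * (l ^ 120 * (1 + 2 * P)) ≤
        Real.exp (l ^ 40 / 2 - l / 8) * (l ^ 120 * (7 * l ^ 40 * Real.exp (l ^ 40 / 2))) := by gcongr
      _ = 7 * l ^ 160 * (Real.exp (l ^ 40 / 2 - l / 8) * Real.exp (l ^ 40 / 2)) := by ring
      _ = 7 * l ^ 160 * (XX l * Real.exp (-(l / 8))) := by
        congr 1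
        unfold XX
        rw [← Real.exp_add, ← Real.exp_add]
        congr 1
        ring
  have hlow2 : XX l * Real.exp (-(3 * l / 1400)) / 16 ≤ XX l / (16 * (M : ℝ) ^ 3) := by
    have e1 : XX l * Real.exp (-(3 * l / 1400)) ≤ XX l / (M : ℝ) ^ 3 := by
      rw [Real.exp_neg, ← div_eq_mul_inv]
      exact div_le_div_of_nonneg_left hXpos.le (by positivity) hM3
    have e2 : XX l / (16 * (M : ℝ) ^ 3) = (XX l / (M : ℝ) ^ 3) / 16 := by
      rw [mul_comm, div_mul_eq_div_div]
    rw [e2]
    linarith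
  have hall : XX l * Real.exp (-(3 * l / 1400)) / 16 ≤ 7 * l ^ 160 * (XX l * Real.exp (-(l / 8))) :=
    (hlow2.trans hfin2).trans hup2
  have hall2 : Real.exp (-(3 * l / 1400)) ≤ 112 * l ^ 160 * Real.exp (-(l / 8)) := by
    have : XX l * Real.exp (-(3 * l / 1400)) ≤ XX l * (112 * l ^ 160 * Real.exp (-(l / 8))) := by linarith
    exact le_of_mul_le_mul_left this hXpos
  have hlt : 112 * l ^ 160 * Real.exp (-(l / 8)) < Real.exp (-(3 * l / 1400)) := by
    have e1 : 112 * l ^ 160 < Real.exp (1 / 10 * l) := by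
      have : 0 < l ^ 160 := by positivity
      linarith
    calc 112 * l ^ 160 * Real.exp (-(l / 8)) < Real.exp (1 / 10 * l) * Real.exp (-(l / 8)) := by gcongr
      _ = Real.exp (1 / 10 * l + -(l / 8)) := (Real.exp_add _ _).symm
      _ ≤ _ := Real.exp_le_exp.mpr (by linarith)
  linarith

end Pool.Agent.N728.SP
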