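import Pool.Agent.N728.SP.Def
import Pool.Agent.N525.SP.H1
import Pool.Agent.H398R2.BA1

/-!
# Divisor form of the model, bound of the coefficients, mean square
-/

set_option autoImplicit false

namespace Pool.Agent.N728.SP.GDW

open Finset Pool.Agent.N728.SP Pool.Agent.N525.SP.H1

theorem sum_div' (g : ℕ → ℝ) {r : ℕ} (hr : Squarefree r) :
    ∑ e ∈ r.divisors, ∏ p ∈ e.primeFactors, g p = ∏ p ∈ r.primeFactors, (1 + g p) := by
  have h := (ArithmeticFunction.IsMultiplicative.prodPrimeFactors g).prodPrimeFactors_one_add_of_squarefree hr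
  have h1 : ∀ p ∈ r.primeFactors, 1 + ArithmeticFunction.prodPrimeFactors g p = 1 + g p := by
    intro p hp
    have hpp := Nat.prime_of_mem_primeFactors hp
    rw [ArithmeticFunction.prodPrimeFactors_apply hpp.ne_zero, hpp.primeFactors, Finset.prod_singleton]
  rw [← Finset.prod_congr rfl h1, h]
  refine Finset.sum_congr rfl fun e he => ?_
  rw [ArithmeticFunction.prodPrimeFactors_apply (Nat.pos_of_mem_divisors he).ne']

theorem tot1 {e : ℕ} (he : Squarefree e) : (Nat.totient e : ℝ) = ∏ p ∈ e.primeFactors, ((p : ℝ) - 1) := by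
  have h := tot (D := 1) one_ne_zero he
  rw [one_mul, Nat.totient_one, Nat.cast_one, one_mul] at h
  rw [h]
  refine prod_congr rfl fun p hp => ?_
  have hpp := Nat.prime_of_mem_primeFactors hp
  rw [if_neg (by rw [Nat.dvd_one]; exact hpp.one_lt.ne')]

theorem cast_eq {e : ℕ} (he : Squarefree e) : (e : ℝ) = ∏ p ∈ e.primeFactors, (p : ℝ) := by
  conv_lhs => rw [← Nat.prod_primeFactors_of_squarefree he]
  push_cast
  rfl

theorem term' {n e : ℕ} (he : Squarefree e) :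
    (if e ∣ n then ((ArithmeticFunction.moebius e : ℤ) : ℝ) * e else 0) =
      ∏ p ∈ e.primeFactors, (if p ∣ n then -(p : ℝ) else 0) := by
  split_ifs with h
  · rw [mu he, cast_eq he, ← prod_mul_distrib]
    refine prod_congr rfl fun p hp => ?_
    rw [if_pos ((Nat.dvd_of_mem_primeFactors hp).trans h)]
    ring
  · have : ∃ p ∈ e.primeFactors, ¬ p ∣ n := by
      by_contra hcon
      push Not at hcon
      apply h
      conv_lhs => rw [← Nat.prod_primeFactors_of_squarefree he]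
      exact Finset.prod_primes_dvd n (fun p hp => (Nat.prime_of_mem_primeFactors hp).prime) hcon
    obtain ⟨p, hp, hpn⟩ := this
    rw [prod_eq_zero hp (by rw [if_neg hpn])]

theorem hh_eq {n r : ℕ} (hr : Squarefree r) :
    hh r n = (1 / (Nat.totient r : ℝ)) *
      ∑ e ∈ r.divisors, (if e ∣ n then ((ArithmeticFunction.moebius e : ℤ) : ℝ) * e else 0) := by
  have h1 : ∀ e ∈ r.divisors, (if e ∣ n then ((ArithmeticFunction.moebius e : ℤ) : ℝ) * e else 0) =
      ∏ p ∈ e.primeFactors, (if p ∣ n then -(p : ℝ) else 0) := fun e he =>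
    term' (hr.squarefree_of_dvd (Nat.dvd_of_mem_divisors he))
  rw [sum_congr rfl h1, sum_div' _ hr, tot1 hr, one_div, ← Finset.prod_inv_distrib, ← prod_mul_distrib]
  unfold hh
  refine prod_congr rfl fun p hp => ?_
  have hpp := Nat.prime_of_mem_primeFactors hp
  have h2 : (p : ℝ) - 1 ≠ 0 := by
    have : (1 : ℝ) < p := by exact_mod_cast hpp.one_lt
    linarith
  split_ifs
  · field_simp
    ring
  · rw [add_zero, mul_one, one_div]

theorem t_GD : S_GD := by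
  intro M Q s
  have step1 : ∀ e ∈ RR M Q, (if e ∣ M * s + 1 then ww M Q e else 0) =
      ∑ r ∈ RR M Q, if e ∣ r then 1 / (Nat.totient r : ℝ) *
        (if e ∣ M * s + 1 then ((ArithmeticFunction.moebius e : ℤ) : ℝ) * e else 0) else 0 := by
    intro e _
    rw [← Finset.sum_filter, ww, Finset.mul_sum]
    split_ifs with h
    · refine Finset.sum_congr rfl fun r _ => ?_
      ring
    · simp
  rw [Finset.sum_congr rfl step1, Finset.sum_comm, gg]
  refine Finset.sum_congr rfl fun r hr => ?_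
  obtain ⟨⟨hr1, hrQ⟩, hrs, hrM⟩ := mem_RR.1 hr
  rw [← Finset.sum_filter, ← Finset.mul_sum, hh_eq hrs]
  congr 1
  have hset : (RR M Q).filter (fun e => e ∣ r) = r.divisors := by
    ext e
    simp only [Finset.mem_filter, mem_RR, Nat.mem_divisors]
    constructor
    · rintro ⟨-, h2⟩
      exact ⟨h2, by omega⟩
    · rintro ⟨h1, h2⟩
      have hr0 : 0 < r := by omega
      exact ⟨⟨⟨Nat.pos_of_dvd_of_pos h1 hr0, (Nat.le_of_dvd hr0 h1).trans hrQ⟩,
        hrs.squarefree_of_dvd h1, hrM.coprime_dvd_left h1⟩, h1⟩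
  rw [hset]

/-- sum of `1/φ` -/
theorem sum_phi : ∃ k : ℕ, ∀ Q : ℕ, ∑ e ∈ Icc 1 Q, 1 / (Nat.totient e : ℝ) ≤ (1 + Real.log Q) ^ (2 ^ k) := by
  obtain ⟨k, hk⟩ := Pool.Agent.H398R2.BV.sum_pow_omega_div_totient 1 le_rfl
  refine ⟨k, fun Q => le_trans (le_of_eq ?_) (hk Q)⟩
  refine sum_congr rfl fun e _ => ?_
  rw [one_pow]

theorem ratio_le {e Q : ℕ} (he : Squarefree e) (heQ : e ≤ Q) :
    (e : ℝ) / Nat.totient e ≤ ∑ d ∈ Icc 1 Q, 1 / (Nat.totient d : ℝ) := by
  have h1 : (e : ℝ) / Nat.totient e = ∑ d ∈ e.divisors, 1 / (Nat.totient d : ℝ) := by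
    rw [cast_eq he, tot1 he, ← prod_div_distrib]
    have h2 : ∀ p ∈ e.primeFactors, (p : ℝ) / ((p : ℝ) - 1) = 1 + 1 / ((p : ℝ) - 1) := by
      intro p hp
      have hpp := Nat.prime_of_mem_primeFactors hp
      have h2 : (p : ℝ) - 1 ≠ 0 := by
        have : (1 : ℝ) < p := by exact_mod_cast hpp.one_lt
        linarith
      field_simp
      ring
    rw [prod_congr rfl h2, ← sum_div' (fun p => 1 / ((p : ℝ) - 1)) he]
    refine sum_congr rfl fun d hd => ?_
    rw [tot1 (he.squarefree_of_dvd (Nat.dvd_of_mem_divisors hd)), prod_div_distrib, prod_const_one]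
  rw [h1]
  refine sum_le_sum_of_subset_of_nonneg ?_ (fun i _ _ => by positivity)
  intro d hd
  rw [mem_Icc]
  exact ⟨Nat.pos_of_mem_divisors hd, (Nat.divisor_le hd).trans heQ⟩

theorem t_WB : S_WB := by
  obtain ⟨k, hk⟩ := sum_phi
  refine ⟨2 ^ k + 2 ^ k, fun M Q e hQ he => ?_⟩
  obtain ⟨⟨he1, heQ⟩, hes, heM⟩ := mem_RR.1 he
  have hlog : 0 ≤ Real.log Q := Real.log_nonneg (by exact_mod_cast hQ)
  have he0 : (0 : ℝ) < e := by exact_mod_cast he1
  have hphi : (0 : ℝ) < Nat.totient e := by exact_mod_cast Nat.totient_pos.mpr (by omega)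
  set S := ∑ d ∈ Icc 1 Q, 1 / (Nat.totient d : ℝ) with hS
  have hS0 : 0 ≤ S := sum_nonneg (fun i _ => by positivity)
  have h1 : ∑ r ∈ (RR M Q).filter (fun r => e ∣ r), 1 / (Nat.totient r : ℝ) ≤ 1 / Nat.totient e * S := by
    rw [hS, mul_sum]
    have h2 : ∀ r ∈ (RR M Q).filter (fun r => e ∣ r), 1 / (Nat.totient r : ℝ) =
        1 / Nat.totient e * (1 / (Nat.totient (r / e) : ℝ)) := by
      intro r hr
      obtain ⟨hr, her⟩ := mem_filter.mp hr
      obtain ⟨⟨hr1, hrQ⟩, hrs, hrM⟩ := mem_RR.1 hr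
      obtain ⟨c, rfl⟩ := her
      rw [Nat.mul_div_cancel_left _ (by omega), Nat.totient_mul (Nat.coprime_of_squarefree_mul hrs)]
      push_cast
      field_simp
    rw [sum_congr rfl h2]
    rw [← sum_image (f := fun c => 1 / (Nat.totient e : ℝ) * (1 / (Nat.totient c : ℝ))) (g := fun r => r / e)]
    · refine sum_le_sum_of_subset_of_nonneg ?_ (fun i _ _ => by positivity)
      intro c hc
      obtain ⟨r, hr, rfl⟩ := mem_image.mp hc
      obtain ⟨hr, her⟩ := mem_filter.mp hr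
      obtain ⟨⟨hr1, hrQ⟩, hrs, hrM⟩ := mem_RR.1 hr
      rw [mem_Icc]
      exact ⟨Nat.div_pos (Nat.le_of_dvd hr1 her) he1, (Nat.div_le_self _ _).trans hrQ⟩
    · intro r hr r' hr' h
      have her := (mem_filter.mp hr).2
      have her' := (mem_filter.mp hr').2
      simp only at h
      rw [← Nat.div_mul_cancel her, ← Nat.div_mul_cancel her', h]
  have h3 : |ww M Q e| ≤ e * (1 / Nat.totient e * S) := by
    unfold ww
    have h4 : 0 ≤ ∑ r ∈ (RR M Q).filter (fun r => e ∣ r), 1 / (Nat.totient r : ℝ) :=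
      sum_nonneg (fun i _ => by positivity)
    rw [abs_mul, abs_mul, abs_of_nonneg h4, Nat.abs_cast]
    have h5 : |((ArithmeticFunction.moebius e : ℤ) : ℝ)| ≤ 1 := by
      rw [← Int.cast_abs]
      exact_mod_cast ArithmeticFunction.abs_moebius_le_one
    calc |((ArithmeticFunction.moebius e : ℤ) : ℝ)| * e *
          ∑ r ∈ (RR M Q).filter (fun r => e ∣ r), 1 / (Nat.totient r : ℝ) ≤
        1 * e * (1 / Nat.totient e * S) := by gcongr
      _ = _ := by ring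
  have h6 := ratio_le hes heQ
  calc |ww M Q e| ≤ e * (1 / Nat.totient e * S) := h3
    _ = (e / Nat.totient e) * S := by ring
    _ ≤ S * S := by gcongr
    _ ≤ (1 + Real.log Q) ^ (2 ^ k) * (1 + Real.log Q) ^ (2 ^ k) :=
        mul_le_mul (hk Q) (hk Q) hS0 (by positivity)
    _ = (1 + Real.log Q) ^ (2 ^ k + 2 ^ k) := by rw [← pow_add]
    _ ≤ _ := by gcongr; norm_num

/-- number of solutions of a congruence in an interval -/
theorem count_le (L A B n : ℕ) (hL : 1 ≤ L) (hB : B.Coprime L) :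
    (((range n).filter (fun k => L ∣ A + B * k)).card : ℝ) ≤ (n : ℝ) / L + 1 := by
  classical
  rcases (((range n).filter (fun k => L ∣ A + B * k)).eq_empty_or_nonempty) with h | ⟨k0, hk0⟩
  · rw [h]
    simp only [card_empty, Nat.cast_zero]
    positivity
  · obtain ⟨hk0n, hk0d⟩ := mem_filter.mp hk0
    have hsub : (range n).filter (fun k => L ∣ A + B * k) ⊆ (range n).filter (fun k => k ≡ k0 [MOD L]) := by
      intro k hk
      obtain ⟨hkn, hkd⟩ := mem_filter.mp hk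
      refine mem_filter.mpr ⟨hkn, ?_⟩
      have h1 : A + B * k ≡ A + B * k0 [MOD L] :=
        ((Nat.modEq_zero_iff_dvd).mpr hkd).trans ((Nat.modEq_zero_iff_dvd).mpr hk0d).symm
      have h2 : B * k ≡ B * k0 [MOD L] := Nat.ModEq.add_left_cancel' A h1
      exact Nat.ModEq.cancel_left_of_coprime (by rw [Nat.gcd_comm]; exact hB) h2
    have h3 : ((range n).filter (fun k => k ≡ k0 [MOD L])).card = Nat.count (fun k => k ≡ k0 [MOD L]) n := by
      rw [Nat.count_eq_card_filter_range]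
    have h4 : (((range n).filter (fun k => L ∣ A + B * k)).card : ℝ) ≤
        ((Nat.count (fun k => k ≡ k0 [MOD L]) n : ℕ) : ℝ) := by
      rw [← h3]
      exact_mod_cast card_le_card hsub
    have h5 := Nat.count_modEq_card n (r := L) (by omega) k0
    have h6 : Nat.count (fun k => k ≡ k0 [MOD L]) n ≤ n / L + 1 := by
      rw [h5]
      split_ifs <;> omega
    have h7 : ((Nat.count (fun k => k ≡ k0 [MOD L]) n : ℕ) : ℝ) ≤ ((n / L + 1 : ℕ) : ℝ) := by exact_mod_cast h6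
    refine h4.trans (h7.trans ?_)
    push_cast
    have := Nat.cast_div_le (α := ℝ) (m := n) (n := L)
    linarith

/-- sum of the reciprocals of the least common multiples -/
theorem sum_lcm (Q : ℕ) :
    ∑ e ∈ Icc 1 Q, ∑ e' ∈ Icc 1 Q, 1 / (Nat.lcm e e' : ℝ) ≤ (1 + Real.log ((Q ^ 2 : ℕ) : ℝ)) ^ (2 ^ 2) := by
  refine le_trans ?_ (Pool.Agent.H398R2.BV.sum_card_pow_div 2 (Q ^ 2))
  rw [← sum_product' (Icc 1 Q) (Icc 1 Q) (fun e e' => 1 / (Nat.lcm e e' : ℝ))]
  have hmaps : ∀ q ∈ Icc 1 Q ×ˢ Icc 1 Q, Nat.lcm q.1 q.2 ∈ Icc 1 (Q ^ 2) := by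
    intro q hq
    obtain ⟨h1, h2⟩ := mem_product.mp hq
    rw [mem_Icc] at h1 h2 ⊢
    refine ⟨Nat.lcm_pos (by omega) (by omega), ?_⟩
    calc Nat.lcm q.1 q.2 ≤ q.1 * q.2 := Nat.le_of_dvd (by
          have : 0 < q.1 * q.2 := Nat.mul_pos (by omega) (by omega)
          exact this) (Nat.lcm_dvd_mul _ _)
      _ ≤ Q * Q := Nat.mul_le_mul h1.2 h2.2
      _ = Q ^ 2 := by ring
  rw [← sum_fiberwise_of_maps_to hmaps]
  refine sum_le_sum fun L hL => ?_
  have hL1 : 1 ≤ L := (mem_Icc.mp hL).1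
  have h1 : ∀ q ∈ (Icc 1 Q ×ˢ Icc 1 Q).filter (fun q => Nat.lcm q.1 q.2 = L), 1 / (Nat.lcm q.1 q.2 : ℝ) = 1 / (L : ℝ) := by
    intro q hq
    rw [(mem_filter.mp hq).2]
  rw [sum_congr rfl h1, sum_const, nsmul_eq_mul, mul_one_div]
  gcongr
  have h2 : (Icc 1 Q ×ˢ Icc 1 Q).filter (fun q => Nat.lcm q.1 q.2 = L) ⊆ L.divisors ×ˢ L.divisors := by
    intro q hq
    have h3 := (mem_filter.mp hq).2
    rw [mem_product, Nat.mem_divisors, Nat.mem_divisors]
    exact ⟨⟨h3 ▸ Nat.dvd_lcm_left _ _, by omega⟩, ⟨h3 ▸ Nat.dvd_lcm_right _ _, by omega⟩⟩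
  have h3 := card_le_card h2
  rw [card_product] at h3
  rw [sq]
  exact_mod_cast h3

theorem t_GQ : S_GQ := by
  obtain ⟨C, hC⟩ := t_WB
  refine ⟨2 * C + 8, fun M Q a b n hM hQ hb => ?_⟩
  have hlog : 0 ≤ Real.log Q := Real.log_nonneg (by exact_mod_cast hQ)
  set W := (2 + Real.log Q) ^ C with hW
  have hW0 : 0 ≤ W := by positivity
  -- expand
  have h1 : ∀ k : ℕ, gg M Q (a + b * k) ^ 2 = ∑ e ∈ RR M Q, ∑ e' ∈ RR M Q,
      (ww M Q e * ww M Q e') * (if Nat.lcm e e' ∣ (M * a + 1) + (M * b) * k then 1 else 0) := by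
    intro k
    rw [t_GD M Q (a + b * k), sq, sum_mul_sum]
    refine sum_congr rfl fun e _ => sum_congr rfl fun e' _ => ?_
    have h2 : M * (a + b * k) + 1 = (M * a + 1) + (M * b) * k := by ring
    rw [h2]
    by_cases he : e ∣ (M * a + 1) + (M * b) * k
    · by_cases he' : e' ∣ (M * a + 1) + (M * b) * k
      · rw [if_pos he, if_pos he', if_pos (Nat.lcm_dvd he he'), mul_one]
      · rw [if_neg he', if_neg (fun h => he' ((Nat.dvd_lcm_right e e').trans h))]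
        ring
    · rw [if_neg he, if_neg (fun h => he ((Nat.dvd_lcm_left e e').trans h))]
      ring
  have h2 : ∑ k ∈ range n, gg M Q (a + b * k) ^ 2 = ∑ e ∈ RR M Q, ∑ e' ∈ RR M Q,
      (ww M Q e * ww M Q e') * (((range n).filter (fun k => Nat.lcm e e' ∣ (M * a + 1) + (M * b) * k)).card : ℝ) := by
    rw [sum_congr rfl (fun k _ => h1 k), sum_comm]
    refine sum_congr rfl fun e _ => ?_
    rw [sum_comm]
    refine sum_congr rfl fun e' _ => ?_
    rw [← mul_sum, ← sum_filter, sum_const, nsmul_eq_mul, mul_one]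
  rw [h2]
  have h3 : ∀ e ∈ RR M Q, ∀ e' ∈ RR M Q,
      (ww M Q e * ww M Q e') * (((range n).filter (fun k => Nat.lcm e e' ∣ (M * a + 1) + (M * b) * k)).card : ℝ) ≤
        W ^ 2 * ((n : ℝ) * (1 / (Nat.lcm e e' : ℝ)) + 1) := by
    intro e he e' he'
    obtain ⟨⟨he1, heQ⟩, hes, heM⟩ := mem_RR.1 he
    obtain ⟨⟨he1', heQ'⟩, hes', heM'⟩ := mem_RR.1 he'
    have hL1 : 1 ≤ Nat.lcm e e' := Nat.lcm_pos (by omega) (by omega)
    have hML : M.Coprime (Nat.lcm e e') :=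
      Nat.Coprime.coprime_dvd_right (Nat.lcm_dvd_mul e e') (Nat.Coprime.mul_right heM.symm heM'.symm)
    have hcop : (M * b).Coprime (Nat.lcm e e') :=
      Nat.Coprime.mul_left hML (Nat.Coprime.coprime_dvd_left hb hML)
    have h4 := count_le (Nat.lcm e e') (M * a + 1) (M * b) n hL1 hcop
    have h5 := hC M Q e hQ he
    have h6 := hC M Q e' hQ he'
    have h7 : ww M Q e * ww M Q e' ≤ W ^ 2 := by
      calc ww M Q e * ww M Q e' ≤ |ww M Q e * ww M Q e'| := le_abs_self _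
        _ = |ww M Q e| * |ww M Q e'| := abs_mul _ _
        _ ≤ W * W := mul_le_mul h5 h6 (abs_nonneg _) hW0
        _ = W ^ 2 := by ring
    calc (ww M Q e * ww M Q e') * (((range n).filter (fun k => Nat.lcm e e' ∣ (M * a + 1) + (M * b) * k)).card : ℝ) ≤
          W ^ 2 * (((range n).filter (fun k => Nat.lcm e e' ∣ (M * a + 1) + (M * b) * k)).card : ℝ) :=
          mul_le_mul_of_nonneg_right h7 (Nat.cast_nonneg _)
      _ ≤ W ^ 2 * ((n : ℝ) / (Nat.lcm e e' : ℝ) + 1) := mul_le_mul_of_nonneg_left h4 (sq_nonneg _)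
      _ = _ := by rw [mul_one_div]
  have hsub : RR M Q ⊆ Icc 1 Q := filter_subset _ _
  have h8 : ∑ e ∈ RR M Q, ∑ e' ∈ RR M Q, W ^ 2 * ((n : ℝ) * (1 / (Nat.lcm e e' : ℝ)) + 1) ≤
      ∑ e ∈ Icc 1 Q, ∑ e' ∈ Icc 1 Q, W ^ 2 * ((n : ℝ) * (1 / (Nat.lcm e e' : ℝ)) + 1) := by
    have h9 : ∀ e ∈ RR M Q, ∑ e' ∈ RR M Q, W ^ 2 * ((n : ℝ) * (1 / (Nat.lcm e e' : ℝ)) + 1) ≤
        ∑ e' ∈ Icc 1 Q, W ^ 2 * ((n : ℝ) * (1 / (Nat.lcm e e' : ℝ)) + 1) := by
      intro e _
      exact sum_le_sum_of_subset_of_nonneg hsub (fun i _ _ => by positivity)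
    refine (sum_le_sum h9).trans ?_
    exact sum_le_sum_of_subset_of_nonneg hsub (fun i _ _ => sum_nonneg (fun j _ => by positivity))
  have h10 : ∑ e ∈ Icc 1 Q, ∑ e' ∈ Icc 1 Q, W ^ 2 * ((n : ℝ) * (1 / (Nat.lcm e e' : ℝ)) + 1) =
      W ^ 2 * (n * ∑ e ∈ Icc 1 Q, ∑ e' ∈ Icc 1 Q, 1 / (Nat.lcm e e' : ℝ) + Q ^ 2) := by
    simp_rw [← mul_sum, sum_add_distrib, ← mul_sum]
    simp
    left
    ring
  have h11 := sum_lcm Q
  have h12 : (1 + Real.log ((Q ^ 2 : ℕ) : ℝ)) ^ (2 ^ 2) ≤ (2 + Real.log Q) ^ 8 := by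
    have h13 : Real.log ((Q ^ 2 : ℕ) : ℝ) = 2 * Real.log Q := by
      push_cast
      rw [Real.log_pow]
      norm_num
    rw [h13]
    have h14 : 1 + 2 * Real.log Q ≤ (2 + Real.log Q) ^ 2 := by nlinarith
    calc (1 + 2 * Real.log Q) ^ (2 ^ 2) ≤ ((2 + Real.log Q) ^ 2) ^ (2 ^ 2) := by gcongr
      _ = (2 + Real.log Q) ^ 8 := by rw [← pow_mul]; norm_num
  have h15 : (1 : ℝ) ≤ (2 + Real.log Q) ^ 8 := one_le_pow₀ (by linarith)
  calc ∑ e ∈ RR M Q, ∑ e' ∈ RR M Q,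
      (ww M Q e * ww M Q e') * (((range n).filter (fun k => Nat.lcm e e' ∣ (M * a + 1) + (M * b) * k)).card : ℝ) ≤
      ∑ e ∈ RR M Q, ∑ e' ∈ RR M Q, W ^ 2 * ((n : ℝ) * (1 / (Nat.lcm e e' : ℝ)) + 1) :=
        sum_le_sum fun e he => sum_le_sum fun e' he' => h3 e he e' he'
    _ ≤ _ := h8
    _ = _ := h10
    _ ≤ W ^ 2 * (n * (2 + Real.log Q) ^ 8 + (2 + Real.log Q) ^ 8 * Q ^ 2) := by
        have h16 : (Q : ℝ) ^ 2 ≤ (2 + Real.log Q) ^ 8 * Q ^ 2 := by
          have : (0 : ℝ) ≤ (Q : ℝ) ^ 2 := by positivity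
          nlinarith
        have h17 := h11.trans h12
        gcongr
    _ = (2 + Real.log Q) ^ (2 * C + 8) * (n + Q ^ 2) := by
        rw [hW, pow_add, mul_comm 2 C, pow_mul]
        ring

end Pool.Agent.N728.SP.GDW
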