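import Pool.Agent.N728.SP.Def
import Pool.Agent.H378R2.M1c

/-!
# Good scales without exceptional characters
-/

set_option autoImplicit false

namespace Pool.Agent.N728.SP.GS

open Pool.Agent.N728.SP Pool.Agent.H378R2.M1 Filter Topology Set
open Pool.Agent.Erdos456 (mul_char_apply)
open DirichletCharacter

/-- the size of the `L`-function near one as a function of the scale -/
noncomputable def DD (d1 κ : ℝ) {f : ℕ} [NeZero f] (χ : DirichletCharacter ℂ f) (l : ℝ) : ℝ :=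
  ‖LFunction χ ((1 + d1 / l ^ 9 : ℝ) : ℂ)‖ - κ / l ^ 7

theorem DD_cont (d1 κ : ℝ) {f : ℕ} [NeZero f] (χ : DirichletCharacter ℂ f) (hχ : χ ≠ 1) {l : ℝ} (hl : 0 < l) :
    ContinuousAt (DD d1 κ χ) l := by
  unfold DD
  have h1 : Continuous (LFunction χ) := (differentiable_LFunction hχ).continuous
  have h2 : ContinuousAt (fun l : ℝ => (1 + d1 / l ^ 9 : ℝ)) l :=
    continuousAt_const.add (continuousAt_const.div (continuousAt_id.pow 9) (by simpa using hl.ne'))
  have h3 : ContinuousAt (fun l : ℝ => ((1 + d1 / l ^ 9 : ℝ) : ℂ)) l :=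
    Complex.continuous_ofReal.continuousAt.comp h2
  have h4 : ContinuousAt (fun l : ℝ => LFunction χ ((1 + d1 / l ^ 9 : ℝ) : ℂ)) l :=
    ContinuousAt.comp (g := LFunction χ) (h1.continuousAt) h3
  have h5 : ContinuousAt (fun l : ℝ => κ / l ^ 7) l :=
    continuousAt_const.div (continuousAt_id.pow 7) (by simpa using hl.ne')
  exact h4.norm.sub h5

theorem DD_pos (d1 κ : ℝ) {f : ℕ} [NeZero f] (χ : DirichletCharacter ℂ f) (hχ : χ ≠ 1) (L : ℝ) :
    ∃ l : ℝ, L ≤ l ∧ 0 < DD d1 κ χ l := by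
  have h0 : LFunction χ 1 ≠ 0 := LFunction_apply_one_ne_zero hχ
  have h1 : Continuous (LFunction χ) := (differentiable_LFunction hχ).continuous
  have h9 : Tendsto (fun l : ℝ => d1 / l ^ 9) atTop (𝓝 0) :=
    tendsto_const_nhds.div_atTop (tendsto_pow_atTop (by norm_num))
  have h7 : Tendsto (fun l : ℝ => κ / l ^ 7) atTop (𝓝 0) :=
    tendsto_const_nhds.div_atTop (tendsto_pow_atTop (by norm_num))
  have h2 : Tendsto (fun l : ℝ => ((1 + d1 / l ^ 9 : ℝ) : ℂ)) atTop (𝓝 1) := by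
    have h3 : Tendsto (fun l : ℝ => (1 + d1 / l ^ 9 : ℝ)) atTop (𝓝 (1 + 0)) := tendsto_const_nhds.add h9
    have h4 := (Complex.continuous_ofReal.tendsto (1 + 0)).comp h3
    rw [add_zero, Complex.ofReal_one] at h4
    exact h4
  have h3 : Tendsto (fun l : ℝ => LFunction χ ((1 + d1 / l ^ 9 : ℝ) : ℂ)) atTop (𝓝 (LFunction χ 1)) :=
    (h1.tendsto 1).comp h2
  have h4 : Tendsto (DD d1 κ χ) atTop (𝓝 (‖LFunction χ 1‖ - 0)) := h3.norm.sub h7
  rw [sub_zero] at h4
  have h5 : ∀ᶠ l in atTop, 0 < DD d1 κ χ l := h4.eventually (lt_mem_nhds (norm_pos_iff.mpr h0))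
  obtain ⟨l, hl1, hl2⟩ := ((eventually_ge_atTop L).and h5).exists
  exact ⟨l, hl1, hl2⟩

theorem t_GS : S_GS := by
  obtain ⟨d1, d2, κ, hd1, hd1', hd2, hd2', hκ, hA, hB⟩ := nzr
  refine ⟨d2, hd2, hd2', ?_⟩
  intro L00
  by_contra hcon
  push Not at hcon
  set L0 : ℝ := max L00 4 with hL0
  have hL04 : 4 ≤ L0 := le_max_right _ _
  -- at every scale there is an exceptional character
  have hex : ∀ l : ℝ, L0 ≤ l → ∃ f : ℕ, ∃ _ : NeZero f, 1 < f ∧ Real.log f ≤ l ∧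
      ∃ χ : DirichletCharacter ℂ f, χ.IsPrimitive ∧ χ ^ 2 = 1 ∧ DD d1 κ χ l < 0 := by
    intro l hl
    by_contra hno
    refine hcon l ((le_max_left _ _).trans hl) ?_
    intro f hf0 hf1 hfl χ hχ s hs1 hs2
    refine hA l (hL04.trans hl) f χ (primitive_ne_one hf1 hχ) hfl ?_ s hs1 hs2
    intro hsq
    by_contra hc
    push Not at hc
    exact hno ⟨f, hf0, hf1, hfl, χ, hχ, hsq, by unfold DD; linarith⟩
  obtain ⟨f1, hf10, hf11, hf1l, χ1, hχ1, hχ1s, hD1⟩ := hex L0 le_rfl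
  have hχ1n := primitive_ne_one hf11 hχ1
  set S : Set ℝ := {l : ℝ | L0 ≤ l ∧ 0 ≤ DD d1 κ χ1 l} with hS
  have hSne : S.Nonempty := by
    obtain ⟨l, hl1, hl2⟩ := DD_pos d1 κ χ1 hχ1n L0
    exact ⟨l, hl1, hl2.le⟩
  have hSbdd : BddBelow S := ⟨L0, fun l hl => hl.1⟩
  have hSclosed : IsClosed S := by
    rw [← isSeqClosed_iff_isClosed]
    intro u x hu hx
    have h1 : L0 ≤ x := ge_of_tendsto' hx (fun n => (hu n).1)
    have h2 : Tendsto (fun n => DD d1 κ χ1 (u n)) atTop (𝓝 (DD d1 κ χ1 x)) :=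
      (DD_cont d1 κ χ1 hχ1n (by linarith : 0 < x)).tendsto.comp hx
    exact ⟨h1, ge_of_tendsto' h2 (fun n => (hu n).2)⟩
  set ls : ℝ := sInf S with hls
  have hlsS : ls ∈ S := hSclosed.csInf_mem hSne hSbdd
  have hls1 : L0 ≤ ls := hlsS.1
  have hls2 : 0 ≤ DD d1 κ χ1 ls := hlsS.2
  have hls3 : L0 < ls := by
    rcases eq_or_lt_of_le hls1 with h | h
    · rw [← h] at hls2
      linarith
    · exact h
  have hlt : ∀ l : ℝ, L0 ≤ l → l < ls → DD d1 κ χ1 l < 0 := by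
    intro l h1 h2
    by_contra h3
    push Not at h3
    have := csInf_le hSbdd (show l ∈ S from ⟨h1, h3⟩)
    linarith
  obtain ⟨f2, hf20, hf21, hf2l, χ2, hχ2, hχ2s, hD2⟩ := hex ls hls1
  have hχ2n := primitive_ne_one hf21 hχ2
  -- by continuity `χ2` is exceptional just below `ls`
  have hev : ∀ᶠ l in 𝓝 ls, DD d1 κ χ2 l < 0 :=
    (DD_cont d1 κ χ2 hχ2n (by linarith : 0 < ls)).eventually (gt_mem_nhds hD2)
  obtain ⟨δ, hδ, hball⟩ := Metric.eventually_nhds_iff.mp hev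
  set l : ℝ := max ((L0 + ls) / 2) (ls - δ / 2) with hl
  have hl1 : (L0 + ls) / 2 ≤ l := le_max_left _ _
  have hl2 : ls - δ / 2 ≤ l := le_max_right _ _
  have hl3 : l < ls := max_lt (by linarith) (by linarith)
  have hl0 : L0 ≤ l := by linarith
  have hl4 : 4 ≤ l := by linarith
  have hE1 := hlt l hl0 hl3
  have hE2 : DD d1 κ χ2 l < 0 := by
    apply hball
    rw [Real.dist_eq, abs_lt]
    constructor <;> linarith
  have hN : NeZero (f1 * f2) := ⟨mul_ne_zero (NeZero.ne f1) (NeZero.ne f2)⟩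
  have hlogN : Real.log ((f1 * f2 : ℕ) : ℝ) ≤ 2 * l := by
    push_cast
    rw [Real.log_mul (by exact_mod_cast NeZero.ne f1) (by exact_mod_cast NeZero.ne f2)]
    linarith
  have hfin := hB l hl4 f1 f2 (f1 * f2) hlogN χ1 χ2
    (changeLevel (f1.dvd_mul_right f2) χ1 * changeLevel (f2.dvd_mul_left f1) χ2) hχ1s hχ2s
    (mul_char_apply χ1 χ2) ?_ (by unfold DD at hE1; linarith)
  · unfold DD at hE2
    linarith
  · intro h3
    have e2 : changeLevel (f2.dvd_mul_left f1) χ2 * changeLevel (f2.dvd_mul_left f1) χ2 = 1 := by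
      rw [← map_mul, ← pow_two, hχ2s, map_one]
    have e : changeLevel (f1.dvd_mul_right f2) χ1 = changeLevel (f2.dvd_mul_left f1) χ2 := by
      rw [← h3] at e2
      exact (mul_right_cancel e2).symm
    have e4 := congrArg conductor e
    rw [conductor_changeLevel, conductor_changeLevel, (isPrimitive_def χ1).mp hχ1,
      (isPrimitive_def χ2).mp hχ2] at e4
    subst e4
    have e5 : χ1 = χ2 := changeLevel_injective _ e
    rw [e5] at hls2
    linarith

end Pool.Agent.N728.SP.GS
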