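import Mathlib
import Pool.Agent.N728.SP.Tools

/-! Project SP: the main term. -/

set_option autoImplicit false

namespace Pool.Agent.N728.SP

open Finset Pool.Agent.H410R2

/-- the inner sum over `y` -/
theorem mt_inner (l : ℝ) (m x : ℕ) (hGD : S_GD) (b : ℕ → ℕ)
    (hb : ∀ e ∈ RR (MM l) (QQ l), ∑ y ∈ (Icc 1 (YY l)).filter (fun y => e ∣ MM l * (m * x + MM l / m * y) + 1),
      ArithmeticFunction.vonMangoldt (MM l ^ 3 * x * y + 1) *
        max 0 (Real.log (XX l / ((MM l ^ 3 * x * y + 1 : ℕ) : ℝ))) = psiLogAP (XX l) (MM l ^ 3 * x * e) (b e)) :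
    ∑ y ∈ Icc 1 (YY l), bb l x y * gg (MM l) (QQ l) (m * x + MM l / m * y) =
      (Nat.totient (MM l ^ 3 * x) : ℝ) / ((MM l ^ 3 * x : ℕ) : ℝ) *
        ∑ e ∈ RR (MM l) (QQ l), ww (MM l) (QQ l) e * psiLogAP (XX l) (MM l ^ 3 * x * e) (b e) := by
  set M := MM l
  set Q := QQ l
  set Y := YY l
  set wx := (Nat.totient (M ^ 3 * x) : ℝ) / ((M ^ 3 * x : ℕ) : ℝ)
  set G : ℕ → ℝ := fun y => ArithmeticFunction.vonMangoldt (M ^ 3 * x * y + 1) *
        max 0 (Real.log (XX l / ((M ^ 3 * x * y + 1 : ℕ) : ℝ))) with hG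
  have h1 : ∀ y, bb l x y = wx * G y := fun y => rfl
  calc ∑ y ∈ Icc 1 Y, bb l x y * gg M Q (m * x + M / m * y)
      = ∑ y ∈ Icc 1 Y, wx * ∑ e ∈ RR M Q, (if e ∣ M * (m * x + M / m * y) + 1 then ww M Q e * G y else 0) := by
        refine sum_congr rfl fun y _ => ?_
        rw [h1, hGD, mul_assoc]
        congr 1
        rw [mul_sum]
        refine sum_congr rfl fun e _ => ?_
        split_ifs <;> ring
    _ = wx * ∑ e ∈ RR M Q, ∑ y ∈ Icc 1 Y, (if e ∣ M * (m * x + M / m * y) + 1 then ww M Q e * G y else 0) := by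
        rw [← mul_sum, sum_comm]
    _ = _ := by
        congr 1
        refine sum_congr rfl fun e he => ?_
        rw [← hb e he, mul_sum, ← sum_filter]

/-- lower bound for the sum over `e` -/
theorem mt_e (M Q x u : ℕ) (X T W B : ℝ) (b : ℕ → ℕ) (hM : 1 ≤ M) (hx : 1 ≤ x) (hu : 1 ≤ u) (hMu : M ∣ u)
    (hxu : x ∣ u) (hH1 : S_H1) (hW0 : 0 ≤ W) (hB0 : 0 ≤ B) (hW : ∀ e ∈ RR M Q, |ww M Q e| ≤ W)
    (hcop : ∀ e ∈ RR M Q, ((b e).Coprime (M ^ 3 * x * e) ↔ e.Coprime (u ^ 2 + u - 1)))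
    (hNC : ∀ e ∈ RR M Q, ¬ (b e).Coprime (M ^ 3 * x * e) → |psiLogAP X (M ^ 3 * x * e) (b e)| ≤ B) :
    T / (Nat.totient (M ^ 3 * x) : ℝ) * SS1 M Q x u -
      W * ∑ e ∈ (Icc 1 Q).filter (fun e => (b e).Coprime (M ^ 3 * x * e)),
        |psiLogAP X (M ^ 3 * x * e) (b e) - T / (Nat.totient (M ^ 3 * x * e) : ℝ)| - W * (Q * B) ≤
      ∑ e ∈ RR M Q, ww M Q e * psiLogAP X (M ^ 3 * x * e) (b e) := by
  classical
  set U := u ^ 2 + u - 1 with hU
  set P : ℕ → ℝ := fun e => psiLogAP X (M ^ 3 * x * e) (b e) with hP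
  have h1 := hH1 M Q x u hM hx hu hMu hxu
  have h2 : ∑ e ∈ RR M Q, ww M Q e * P e =
      ∑ e ∈ (RR M Q).filter (fun e => e.Coprime U), ww M Q e * P e +
        ∑ e ∈ (RR M Q).filter (fun e => ¬ e.Coprime U), ww M Q e * P e :=
    (sum_filter_add_sum_filter_not _ _ _).symm
  have h3 : ∑ e ∈ (RR M Q).filter (fun e => e.Coprime U), ww M Q e * P e =
      T / (Nat.totient (M ^ 3 * x) : ℝ) * SS1 M Q x u +
        ∑ e ∈ (RR M Q).filter (fun e => e.Coprime U), ww M Q e *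
          (P e - T / (Nat.totient (M ^ 3 * x * e) : ℝ)) := by
    have e1 : T / (Nat.totient (M ^ 3 * x) : ℝ) * SS1 M Q x u =
        ∑ e ∈ (RR M Q).filter (fun e => e.Coprime U), ww M Q e * (T / (Nat.totient (M ^ 3 * x * e) : ℝ)) := by
      calc T / (Nat.totient (M ^ 3 * x) : ℝ) * SS1 M Q x u =
          T * (1 / (Nat.totient (M ^ 3 * x) : ℝ) * SS1 M Q x u) := by ring
        _ = T * ∑ e ∈ (RR M Q).filter (fun e => e.Coprime U), ww M Q e / (Nat.totient (M ^ 3 * x * e) : ℝ) := by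
          rw [h1]
        _ = _ := by
          rw [mul_sum]
          refine sum_congr rfl fun e _ => by ring
    rw [e1, ← sum_add_distrib]
    refine sum_congr rfl fun e _ => by ring
  have h4 : |∑ e ∈ (RR M Q).filter (fun e => e.Coprime U), ww M Q e *
          (P e - T / (Nat.totient (M ^ 3 * x * e) : ℝ))| ≤
      W * ∑ e ∈ (Icc 1 Q).filter (fun e => (b e).Coprime (M ^ 3 * x * e)),
        |P e - T / (Nat.totient (M ^ 3 * x * e) : ℝ)| := by
    refine (abs_sum_le_sum_abs _ _).trans ?_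
    rw [mul_sum]
    calc ∑ e ∈ (RR M Q).filter (fun e => e.Coprime U), |ww M Q e *
          (P e - T / (Nat.totient (M ^ 3 * x * e) : ℝ))|
        ≤ ∑ e ∈ (RR M Q).filter (fun e => e.Coprime U), W * |P e - T / (Nat.totient (M ^ 3 * x * e) : ℝ)| := by
          refine sum_le_sum fun e he => ?_
          rw [abs_mul]
          exact mul_le_mul_of_nonneg_right (hW e (mem_filter.mp he).1) (abs_nonneg _)
      _ ≤ _ := by
          refine sum_le_sum_of_subset_of_nonneg ?_ (fun _ _ _ => by positivity)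
          intro e he
          rw [mem_filter] at he ⊢
          exact ⟨(mem_filter.mp he.1).1, (hcop e he.1).mpr he.2⟩
  have h5 : |∑ e ∈ (RR M Q).filter (fun e => ¬ e.Coprime U), ww M Q e * P e| ≤ W * (Q * B) := by
    refine (abs_sum_le_sum_abs _ _).trans ?_
    calc ∑ e ∈ (RR M Q).filter (fun e => ¬ e.Coprime U), |ww M Q e * P e|
        ≤ ∑ e ∈ (RR M Q).filter (fun e => ¬ e.Coprime U), W * B := by
          refine sum_le_sum fun e he => ?_
          rw [mem_filter] at he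
          rw [abs_mul]
          exact mul_le_mul (hW e he.1) (hNC e he.1 (fun h => he.2 ((hcop e he.1).mp h))) (abs_nonneg _) hW0
      _ = ((RR M Q).filter (fun e => ¬ e.Coprime U)).card * (W * B) := by
          rw [sum_const, nsmul_eq_mul]
      _ ≤ Q * (W * B) := by
          have : ((RR M Q).filter (fun e => ¬ e.Coprime U)).card ≤ Q := by
            refine (card_filter_le _ _).trans ?_
            unfold RR
            refine (card_filter_le _ _).trans ?_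
            simp
          have h6 : (((RR M Q).filter (fun e => ¬ e.Coprime U)).card : ℝ) ≤ Q := by exact_mod_cast this
          gcongr
      _ = _ := by ring
  rw [abs_le] at h4 h5
  have h6 : ∑ e ∈ RR M Q, ww M Q e * psiLogAP X (M ^ 3 * x * e) (b e) = ∑ e ∈ RR M Q, ww M Q e * P e := rfl
  rw [h6, h2, h3]
  linarith [h4.1, h5.1]

theorem sum_inv_ge (V : ℕ) (hV : 1 ≤ V) : (1 : ℝ) / 2 ≤ ∑ x ∈ Ioc V (2 * V), 1 / (x : ℝ) := by
  have h1 : ∑ x ∈ Ioc V (2 * V), 1 / (2 * (V : ℝ)) ≤ ∑ x ∈ Ioc V (2 * V), 1 / (x : ℝ) := by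
    refine sum_le_sum fun x hx => ?_
    rw [mem_Ioc] at hx
    have h2 : (x : ℝ) ≤ 2 * V := by exact_mod_cast hx.2
    have h3 : (0 : ℝ) < x := by exact_mod_cast (by omega : 0 < x)
    exact one_div_le_one_div_of_le h3 h2
  refine le_trans (le_of_eq ?_) h1
  rw [sum_const, nsmul_eq_mul, Nat.card_Ioc]
  have h3 : 2 * V - V = V := by omega
  rw [h3]
  have : (V : ℝ) ≠ 0 := by
    have : 0 < V := hV
    exact_mod_cast this.ne'
  field_simp

theorem t_MT (hD : S_DISC) (hSP : S_SP) (hGD : S_GD) (hWB : S_WB) (hH1 : S_H1) (hH2 : S_H2) (hH3 : S_H3)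
    (hNC : S_NC) (hS : S_SIZ) : S_MT := by
  obtain ⟨l1, h1⟩ := hS
  obtain ⟨l2, h2⟩ := hD
  obtain ⟨l3, h3⟩ := hSP
  obtain ⟨C1, hC1⟩ := hWB
  obtain ⟨C2, hC2⟩ := hH2
  obtain ⟨a1, ha1⟩ := pow_le_exp 16 (1 / 100) (2 * C1) (by norm_num)
  obtain ⟨a2, ha2⟩ := pow_le_exp 32 (1 / 4) (2 * C1 + 80) (by norm_num)
  obtain ⟨a3, ha3⟩ := pow_le_exp 4 (3 / 4) 0 (by norm_num)
  refine ⟨max (max (max l1 l2) (max l3 a1)) (max (max a2 a3) (max 6000 (2000 * (8 * |C2| + 1)))), ?_⟩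
  intro l hl hSC m hm
  have hl1 : l1 ≤ l := le_trans (by simp) hl
  have hl2 : l2 ≤ l := le_trans (by simp) hl
  have hl3 : l3 ≤ l := le_trans (by simp) hl
  have hla1 : a1 ≤ l := le_trans (by simp) hl
  have hla2 : a2 ≤ l := le_trans (by simp) hl
  have hla3 : a3 ≤ l := le_trans (by simp) hl
  have hl6 : 6000 ≤ l := le_trans (by simp) hl
  have hl7 : 2000 * (8 * |C2| + 1) ≤ l := le_trans (by simp) hl
  have hl0 : 0 ≤ l := by linarith
  have hl1' : 1 ≤ l := by linarith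
  obtain ⟨-, hMle, hMQ, hQV, hVY, hMY, hVge, -, hZ⟩ := h1 l hl1
  have hD := h2 l hl2 hSC
  have hpnt := h3 l hl3 (XX l) (by
    unfold XX
    exact Real.exp_le_exp.mpr (pow_le_pow_right₀ hl1' (by norm_num))) (by
    unfold XX
    exact Real.exp_le_exp.mpr (pow_le_pow_right₀ hl1' (by norm_num)))
  have hp1 := ha1 l hla1
  have hp2 := ha2 l hla2
  have hp3 := ha3 l hla3
  have hmd := Nat.dvd_of_mem_divisors hm
  have hM := MM_pos l
  have hsq := MM_squarefree l
  have hQ1 := one_le_QQ l hl0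
  have hQle := QQ_le l
  have hVle := VV_le l
  have hlogQ := log_QQ_le l hl0
  have hlogQ0 : 0 ≤ Real.log (QQ l) := Real.log_natCast_nonneg _
  -- the level `z`
  set z : ℕ := ⌊l / 2000⌋₊ with hz
  have hz2 : 2 ≤ z := by
    rw [hz]
    apply Nat.le_floor
    push_cast
    linarith
  have hzC : C2 / z ≤ 1 / 8 := by
    have e1 : 8 * |C2| ≤ z := by
      have := Nat.lt_floor_add_one (l / 2000)
      rw [← hz] at this
      linarith
    have e2 : (0 : ℝ) < z := by exact_mod_cast (by omega : 0 < z)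
    rw [div_le_iff₀ e2]
    have := le_abs_self C2
    linarith
  have hMz : MM l = primorial z := rfl
  have hXpos : 0 < XX l := Real.exp_pos _
  have hX1 : 1 ≤ XX l := Real.one_le_exp (by positivity)
  have hlogX : Real.log (XX l) = l ^ 40 := Real.log_exp _
  have hm0 : 0 < m := Nat.pos_of_dvd_of_pos hmd hM
  have hV1 : 1 ≤ VV l := by
    have : 1 ≤ QQ l ^ 2 := Nat.one_le_pow _ _ hQ1
    omega
  have hH2l := hC2 z (QQ l) (VV l) m hz2 hQ1 (hMz ▸ hmd) (by
    refine le_trans ?_ hQV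
    nlinarith)
  rw [← hMz] at hH2l
  -- the range of `y`
  have hYr : ∀ x : ℕ, VV l < x → XX l ≤ (MM l : ℝ) ^ 3 * x * (YY l + 1) + 1 := by
    intro x hx
    have e1 : 0 < (MM l : ℝ) ^ 3 * VV l := by
      have : (0 : ℝ) < MM l := by exact_mod_cast hM
      have : (0 : ℝ) < VV l := by exact_mod_cast hV1
      positivity
    have e2 : XX l / ((MM l : ℝ) ^ 3 * VV l) < YY l + 1 := Nat.lt_floor_add_one _
    rw [div_lt_iff₀ e1] at e2
    have e3 : (VV l : ℝ) ≤ x := by exact_mod_cast hx.le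
    have e4 : ((YY l : ℝ) + 1) * ((MM l : ℝ) ^ 3 * VV l) ≤ ((YY l : ℝ) + 1) * ((MM l : ℝ) ^ 3 * x) := by
      gcongr
    linarith
  -- choice of the residue classes
  have hex : ∀ x e : ℕ, ∃ c : ℕ, VV l < x → e ∈ RR (MM l) (QQ l) →
      (((MM l ^ 3 * x * c + 1).Coprime (MM l ^ 3 * x * e) ↔
        e.Coprime ((MM l * m * x) ^ 2 + MM l * m * x - 1)) ∧
      ∑ y ∈ (Icc 1 (YY l)).filter (fun y => e ∣ MM l * (m * x + MM l / m * y) + 1),
        ArithmeticFunction.vonMangoldt (MM l ^ 3 * x * y + 1) *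
        max 0 (Real.log (XX l / ((MM l ^ 3 * x * y + 1 : ℕ) : ℝ))) =
          psiLogAP (XX l) (MM l ^ 3 * x * e) (MM l ^ 3 * x * c + 1)) := by
    intro x e
    by_cases hxe : VV l < x ∧ e ∈ RR (MM l) (QQ l)
    · obtain ⟨hx, he⟩ := hxe
      have he' := he
      unfold RR at he'
      rw [mem_filter, mem_Icc] at he'
      obtain ⟨c, hc⟩ := hH3 (MM l) e m x (YY l) (XX l) hsq hmd hM (by omega) he'.1.1 he'.2.2 hX1 (by
        have := hYr x hx
        exact_mod_cast this)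
      exact ⟨c, fun _ _ => hc⟩
    · exact ⟨0, fun hx he => absurd ⟨hx, he⟩ hxe⟩
  choose c hc using hex
  set b : ℕ → ℕ → ℕ := fun x e => MM l ^ 3 * x * c x e + 1 with hb
  set W : ℝ := l ^ (2 * C1) with hWdef
  have hW0 : 0 ≤ W := by positivity
  have hW : ∀ e ∈ RR (MM l) (QQ l), |ww (MM l) (QQ l) e| ≤ W := by
    intro e he
    refine (hC1 (MM l) (QQ l) e hQ1 he).trans ?_
    rw [hWdef, pow_mul]
    apply pow_le_pow_left₀ (by linarith)
    nlinarith
  set T := psiLog1 (XX l) with hT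
  -- lower bound for one `x`
  have hxlow : ∀ x ∈ Ioc (VV l) (2 * VV l),
      T / ((MM l : ℝ) ^ 3) * (1 / x - |SS1 (MM l) (QQ l) x (MM l * m * x) - 1| / VV l) -
        W * ∑ e ∈ (Icc 1 (QQ l)).filter (fun e => (b x e).Coprime (MM l ^ 3 * x * e)),
          |psiLogAP (XX l) (MM l ^ 3 * x * e) (b x e) - T / (Nat.totient (MM l ^ 3 * x * e) : ℝ)| -
        W * (QQ l * (2 * l ^ 80)) ≤
      ∑ y ∈ Icc 1 (YY l), bb l x y * gg (MM l) (QQ l) (m * x + MM l / m * y) := by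
    intro x hx
    rw [mem_Ioc] at hx
    have hx1 : 1 ≤ x := by omega
    rw [mt_inner l m x hGD (b x) (fun e he => (hc x e hx.1 he).2)]
    have hme := mt_e (MM l) (QQ l) x (MM l * m * x) (XX l) T W (2 * l ^ 80) (b x) hM hx1
      (Nat.one_le_iff_ne_zero.mpr (by positivity)) (dvd_mul_of_dvd_left (dvd_mul_right _ _) _) (dvd_mul_left _ _) hH1 hW0
      (by positivity) hW (fun e he => (hc x e hx.1 he).1) (by
        intro e he hne
        have he' := he
        unfold RR at he'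
        rw [mem_filter, mem_Icc] at he'
        have hpos : 1 ≤ MM l ^ 3 * x * e := by
          have : 0 < e := he'.1.1
          exact Nat.one_le_iff_ne_zero.mpr (by positivity)
        have h5 := hNC (XX l) (MM l ^ 3 * x * e) (b x e) hX1 hpos hne
        rw [hlogX] at h5
        have h6 : 0 ≤ psiLogAP (XX l) (MM l ^ 3 * x * e) (b x e) := by
          unfold psiLogAP
          refine sum_nonneg fun n hn => ?_
          rw [mem_filter, mem_Icc] at hn
          refine mul_nonneg ArithmeticFunction.vonMangoldt_nonneg (Real.log_nonneg ?_)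
          rw [le_div_iff₀ (by exact_mod_cast hn.1.1), one_mul]
          exact (Nat.le_floor_iff hXpos.le).mp hn.1.2
        rw [abs_of_nonneg h6]
        calc _ ≤ _ := h5
          _ = _ := by ring)
    set wx := (Nat.totient (MM l ^ 3 * x) : ℝ) / ((MM l ^ 3 * x : ℕ) : ℝ) with hwx
    have hMx : 0 < MM l ^ 3 * x := by positivity
    have hφ : (0 : ℝ) < Nat.totient (MM l ^ 3 * x) := by exact_mod_cast Nat.totient_pos.mpr hMx
    have hMxR : (0 : ℝ) < ((MM l ^ 3 * x : ℕ) : ℝ) := by exact_mod_cast hMx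
    have hwx0 : 0 ≤ wx := by positivity
    have hwx1 : wx ≤ 1 := by
      rw [hwx, div_le_one hMxR]
      exact_mod_cast Nat.totient_le _
    refine le_trans ?_ (mul_le_mul_of_nonneg_left hme hwx0)
    set E1 := W * ∑ e ∈ (Icc 1 (QQ l)).filter (fun e => (b x e).Coprime (MM l ^ 3 * x * e)),
          |psiLogAP (XX l) (MM l ^ 3 * x * e) (b x e) - T / (Nat.totient (MM l ^ 3 * x * e) : ℝ)| with hE1
    set E2 := W * (QQ l * (2 * l ^ 80)) with hE2
    have hE10 : 0 ≤ E1 := by positivity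
    have hE20 : 0 ≤ E2 := by positivity
    have e1 : wx * (T / (Nat.totient (MM l ^ 3 * x) : ℝ) * SS1 (MM l) (QQ l) x (MM l * m * x) - E1 - E2) =
        wx * (T / (Nat.totient (MM l ^ 3 * x) : ℝ)) * SS1 (MM l) (QQ l) x (MM l * m * x) - wx * E1 - wx * E2 := by
      ring
    rw [e1]
    have e2 : wx * (T / (Nat.totient (MM l ^ 3 * x) : ℝ)) = T / (MM l : ℝ) ^ 3 * (1 / x) := by
      rw [hwx]
      push_cast
      field_simp
    rw [e2]
    have hT0 : 0 ≤ T := by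
      rw [hT]
      unfold psiLog1
      refine sum_nonneg fun n hn => ?_
      rw [mem_Icc] at hn
      refine mul_nonneg ArithmeticFunction.vonMangoldt_nonneg (Real.log_nonneg ?_)
      rw [le_div_iff₀ (by exact_mod_cast hn.1), one_mul]
      exact (Nat.le_floor_iff hXpos.le).mp hn.2
    have hxR : (0 : ℝ) < x := by exact_mod_cast hx1
    have hVR : (0 : ℝ) < VV l := by exact_mod_cast hV1
    have hVx : (VV l : ℝ) ≤ x := by exact_mod_cast hx.1.le
    have e3 : 1 / (x : ℝ) - |SS1 (MM l) (QQ l) x (MM l * m * x) - 1| / VV l ≤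
        1 / x * SS1 (MM l) (QQ l) x (MM l * m * x) := by
      have f1 : |SS1 (MM l) (QQ l) x (MM l * m * x) - 1| / x ≤
          |SS1 (MM l) (QQ l) x (MM l * m * x) - 1| / VV l :=
        div_le_div_of_nonneg_left (abs_nonneg _) hVR hVx
      have f2 : 1 - |SS1 (MM l) (QQ l) x (MM l * m * x) - 1| ≤ SS1 (MM l) (QQ l) x (MM l * m * x) := by
        have := neg_abs_le (SS1 (MM l) (QQ l) x (MM l * m * x) - 1)
        linarith
      have f3 : (1 - |SS1 (MM l) (QQ l) x (MM l * m * x) - 1|) / x ≤ SS1 (MM l) (QQ l) x (MM l * m * x) / x := by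
        gcongr
      have f4 : (1 - |SS1 (MM l) (QQ l) x (MM l * m * x) - 1|) / x =
        1 / x - |SS1 (MM l) (QQ l) x (MM l * m * x) - 1| / x := by ring
      have f5 : 1 / (x : ℝ) * SS1 (MM l) (QQ l) x (MM l * m * x) = SS1 (MM l) (QQ l) x (MM l * m * x) / x := by ring
      rw [f5]
      linarith
    have e4 : T / (MM l : ℝ) ^ 3 * (1 / (x : ℝ) - |SS1 (MM l) (QQ l) x (MM l * m * x) - 1| / VV l) ≤
        T / (MM l : ℝ) ^ 3 * (1 / x * SS1 (MM l) (QQ l) x (MM l * m * x)) :=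
      mul_le_mul_of_nonneg_left e3 (by positivity)
    have e5 : wx * E1 ≤ E1 := mul_le_of_le_one_left hE10 hwx1
    have e6 : wx * E2 ≤ E2 := mul_le_of_le_one_left hE20 hwx1
    have e7 : T / (MM l : ℝ) ^ 3 * (1 / x) * SS1 (MM l) (QQ l) x (MM l * m * x) =
      T / (MM l : ℝ) ^ 3 * (1 / x * SS1 (MM l) (QQ l) x (MM l * m * x)) := by ring
    rw [e7]
    linarith
  -- sum over `x`
  refine le_trans ?_ (sum_le_sum hxlow)
  rw [sum_sub_distrib, sum_sub_distrib, ← mul_sum, sum_sub_distrib, ← mul_sum, ← sum_div, sum_const,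
    nsmul_eq_mul, Nat.card_Ioc]
  have hVV : 2 * VV l - VV l = VV l := by omega
  rw [hVV]
  have hDb := hD b
  have hinv := sum_inv_ge (VV l) hV1
  have hVR : (0 : ℝ) < VV l := by exact_mod_cast hV1
  have hMR : (0 : ℝ) < MM l := by exact_mod_cast hM
  have hM3 : (MM l : ℝ) ^ 3 ≤ Real.exp (3 * l / 1400) := by
    calc (MM l : ℝ) ^ 3 ≤ (Real.exp (l / 1400)) ^ 3 := by gcongr
      _ = _ := by rw [← Real.exp_nat_mul]; congr 1; push_cast; ring
  have hX3 : XX l * Real.exp (-(3 * l / 1400)) ≤ XX l / (MM l : ℝ) ^ 3 := by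
    rw [Real.exp_neg, ← div_eq_mul_inv]
    exact div_le_div_of_nonneg_left hXpos.le (by positivity) hM3
  have hT34 : 3 / 4 * XX l ≤ T := by
    have e1 : Real.exp (-(3 * l / 4)) ≤ 1 / 4 := by
      rw [Real.exp_neg, inv_eq_one_div]
      apply one_div_le_one_div_of_le (by norm_num)
      calc (4 : ℝ) = 4 * l ^ 0 := by simp
        _ ≤ _ := hp3
        _ = _ := by congr 1; ring
    rw [abs_le] at hpnt
    have e2 : XX l * Real.exp (-(3 * l / 4)) ≤ XX l * (1 / 4) := mul_le_mul_of_nonneg_left e1 hXpos.le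
    linarith [hpnt.1]
  have hmain : XX l / (4 * (MM l : ℝ) ^ 3) ≤ T / (MM l : ℝ) ^ 3 * (∑ x ∈ Ioc (VV l) (2 * VV l), 1 / (x : ℝ) -
      (∑ x ∈ Ioc (VV l) (2 * VV l), |SS1 (MM l) (QQ l) x (MM l * m * x) - 1|) / VV l) := by
    have e1 : (∑ x ∈ Ioc (VV l) (2 * VV l), |SS1 (MM l) (QQ l) x (MM l * m * x) - 1|) / VV l ≤ 1 / 8 := by
      rw [div_le_iff₀ hVR]
      refine hH2l.trans ?_
      calc C2 * VV l / z = C2 / z * VV l := by ring
        _ ≤ 1 / 8 * VV l := by gcongr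
    have e2 : (3 : ℝ) / 8 ≤ ∑ x ∈ Ioc (VV l) (2 * VV l), 1 / (x : ℝ) -
      (∑ x ∈ Ioc (VV l) (2 * VV l), |SS1 (MM l) (QQ l) x (MM l * m * x) - 1|) / VV l := by linarith
    have e3 : XX l / (4 * (MM l : ℝ) ^ 3) ≤ (3 / 4 * XX l) / (MM l : ℝ) ^ 3 * (3 / 8) := by
      rw [div_le_iff₀ (by positivity)]
      field_simp
      norm_num
    refine e3.trans ?_
    have e4 : 0 ≤ T := by linarith
    gcongr
  have herr1 : W * ∑ x ∈ Ioc (VV l) (2 * VV l), ∑ e ∈ (Icc 1 (QQ l)).filter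
      (fun e => (b x e).Coprime (MM l ^ 3 * x * e)),
          |psiLogAP (XX l) (MM l ^ 3 * x * e) (b x e) - T / (Nat.totient (MM l ^ 3 * x * e) : ℝ)| ≤
      XX l / (16 * (MM l : ℝ) ^ 3) := by
    have e1 : W * ∑ x ∈ Ioc (VV l) (2 * VV l), ∑ e ∈ (Icc 1 (QQ l)).filter
      (fun e => (b x e).Coprime (MM l ^ 3 * x * e)),
          |psiLogAP (XX l) (MM l ^ 3 * x * e) (b x e) - T / (Nat.totient (MM l ^ 3 * x * e) : ℝ)| ≤
        W * (XX l * Real.exp (-(l / 60))) := mul_le_mul_of_nonneg_left hDb hW0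
    refine e1.trans ?_
    have e2 : XX l / (16 * (MM l : ℝ) ^ 3) = (XX l / (MM l : ℝ) ^ 3) / 16 := by
      rw [mul_comm, div_mul_eq_div_div]
    rw [e2]
    have e3 : 16 * W * Real.exp (-(l / 60)) ≤ Real.exp (-(3 * l / 1400)) := by
      calc 16 * W * Real.exp (-(l / 60)) ≤ Real.exp (1 / 100 * l) * Real.exp (-(l / 60)) := by gcongr
        _ = Real.exp (1 / 100 * l + -(l / 60)) := (Real.exp_add _ _).symm
        _ ≤ _ := Real.exp_le_exp.mpr (by linarith)
    have e4 : XX l * (16 * W * Real.exp (-(l / 60))) ≤ XX l / (MM l : ℝ) ^ 3 :=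
      (mul_le_mul_of_nonneg_left e3 hXpos.le).trans hX3
    linarith
  have herr2 : (VV l : ℝ) * (W * (QQ l * (2 * l ^ 80))) ≤ XX l / (16 * (MM l : ℝ) ^ 3) := by
    have e2 : XX l / (16 * (MM l : ℝ) ^ 3) = (XX l / (MM l : ℝ) ^ 3) / 16 := by
      rw [mul_comm, div_mul_eq_div_div]
    rw [e2]
    have e3 : (VV l : ℝ) * (W * (QQ l * (2 * l ^ 80))) ≤
        Real.exp (l ^ 40 / 2 - l / 8) * (W * (Real.exp (l / 100) * (2 * l ^ 80))) := by gcongr
    have e4 : 16 * (Real.exp (l ^ 40 / 2 - l / 8) * (W * (Real.exp (l / 100) * (2 * l ^ 80)))) ≤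
        XX l * Real.exp (-(3 * l / 1400)) := by
      have f1 : 16 * (Real.exp (l ^ 40 / 2 - l / 8) * (W * (Real.exp (l / 100) * (2 * l ^ 80)))) =
          (32 * l ^ (2 * C1 + 80)) * Real.exp (l ^ 40 / 2 - l / 8 + l / 100) := by
        rw [Real.exp_add, hWdef, pow_add]; ring
      rw [f1]
      calc (32 * l ^ (2 * C1 + 80)) * Real.exp (l ^ 40 / 2 - l / 8 + l / 100) ≤
          Real.exp (1 / 4 * l) * Real.exp (l ^ 40 / 2 - l / 8 + l / 100) := by gcongr
        _ = Real.exp (1 / 4 * l + (l ^ 40 / 2 - l / 8 + l / 100)) := (Real.exp_add _ _).symm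
        _ ≤ Real.exp (l ^ 40 + -(3 * l / 1400)) := by
            apply Real.exp_le_exp.mpr
            have : l ≤ l ^ 40 := le_self_pow₀ hl1' (by norm_num)
            linarith
        _ = _ := by unfold XX; rw [← Real.exp_add]
    linarith
  have hfin : XX l / (8 * (MM l : ℝ) ^ 3) = XX l / (4 * (MM l : ℝ) ^ 3) - XX l / (16 * (MM l : ℝ) ^ 3) -
      XX l / (16 * (MM l : ℝ) ^ 3) := by
    field_simp
    norm_num
  rw [hfin]
  linarith

end Pool.Agent.N728.SP
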