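import Mathlib
import Pool.Agent.N728.SP.Tools

/-! Project SP: the second moment. -/

set_option autoImplicit false

namespace Pool.Agent.N728.SP

open Finset

/-- general form of the second moment -/
theorem vr_gen (M V Y N : ℕ) (F : ℕ → ℝ) (E B Dg : ℝ) (hPR : S_PR) (hM : 1 ≤ M) (hsq : Squarefree M)
    (hN : 2 * M * V + M * Y + M ^ 2 ≤ N) (hE : 0 ≤ E) (hB : 0 ≤ B) (hF : ∀ s ≤ N, |F s| ≤ B)
    (hAP : ∀ d A n : ℕ, 1 ≤ d → d ≤ M ^ 2 → A + d * n ≤ N → |∑ k ∈ range n, F (A + d * k)| ≤ E)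
    (hDg : ∀ m ∈ M.divisors, ∑ x ∈ Ioc V (2 * V), ∑ y ∈ Icc 1 Y, F (m * x + M / m * y) ^ 2 ≤ Dg) :
    ∑ x ∈ Ioc V (2 * V), ∑ y ∈ Icc 1 Y, (∑ m ∈ M.divisors, F (m * x + M / m * y)) ^ 2 ≤
      M.divisors.card * Dg + (M.divisors.card : ℝ) ^ 2 * (N * B * E) := by
  classical
  have h1 : ∑ x ∈ Ioc V (2 * V), ∑ y ∈ Icc 1 Y, (∑ m ∈ M.divisors, F (m * x + M / m * y)) ^ 2 =
      ∑ m ∈ M.divisors, ∑ m' ∈ M.divisors, ∑ x ∈ Ioc V (2 * V), ∑ y ∈ Icc 1 Y,
        F (m * x + M / m * y) * F (m' * x + M / m' * y) := by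
    have h2 : ∀ x y, (∑ m ∈ M.divisors, F (m * x + M / m * y)) ^ 2 =
        ∑ m ∈ M.divisors, ∑ m' ∈ M.divisors, F (m * x + M / m * y) * F (m' * x + M / m' * y) := by
      intro x y
      rw [sq, sum_mul_sum]
    calc _ = ∑ x ∈ Ioc V (2 * V), ∑ y ∈ Icc 1 Y, ∑ m ∈ M.divisors, ∑ m' ∈ M.divisors,
          F (m * x + M / m * y) * F (m' * x + M / m' * y) := by
          refine sum_congr rfl fun x _ => sum_congr rfl fun y _ => h2 x y
      _ = ∑ x ∈ Ioc V (2 * V), ∑ m ∈ M.divisors, ∑ m' ∈ M.divisors, ∑ y ∈ Icc 1 Y,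
          F (m * x + M / m * y) * F (m' * x + M / m' * y) := by
          refine sum_congr rfl fun x _ => ?_
          rw [sum_comm]
          refine sum_congr rfl fun m _ => ?_
          rw [sum_comm]
      _ = _ := by
          rw [sum_comm]
          refine sum_congr rfl fun m _ => ?_
          rw [sum_comm]
  rw [h1]
  have hNBE : 0 ≤ N * B * E := by positivity
  have h3 : ∀ m ∈ M.divisors, ∀ m' ∈ M.divisors,
      ∑ x ∈ Ioc V (2 * V), ∑ y ∈ Icc 1 Y, F (m * x + M / m * y) * F (m' * x + M / m' * y) ≤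
        (if m = m' then Dg else 0) + N * B * E := by
    intro m hm m' hm'
    by_cases h : m = m'
    · subst h
      rw [if_pos rfl]
      have h4 := hDg m hm
      have h5 : ∑ x ∈ Ioc V (2 * V), ∑ y ∈ Icc 1 Y, F (m * x + M / m * y) * F (m * x + M / m * y) =
          ∑ x ∈ Ioc V (2 * V), ∑ y ∈ Icc 1 Y, F (m * x + M / m * y) ^ 2 := by
        refine sum_congr rfl fun x _ => sum_congr rfl fun y _ => by ring
      linarith
    · rw [if_neg h, zero_add]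
      exact (le_abs_self _).trans (hPR M V Y N m m' F E B hM hsq (Nat.dvd_of_mem_divisors hm)
        (Nat.dvd_of_mem_divisors hm') h hN hE hB hF hAP)
  calc ∑ m ∈ M.divisors, ∑ m' ∈ M.divisors, ∑ x ∈ Ioc V (2 * V), ∑ y ∈ Icc 1 Y,
        F (m * x + M / m * y) * F (m' * x + M / m' * y)
      ≤ ∑ m ∈ M.divisors, ∑ m' ∈ M.divisors, ((if m = m' then Dg else 0) + N * B * E) :=
        sum_le_sum fun m hm => sum_le_sum fun m' hm' => h3 m hm m' hm'
    _ = _ := by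
      simp only [sum_add_distrib, sum_ite_eq, sum_const, nsmul_eq_mul]
      rw [sum_congr rfl (fun m hm => if_pos hm)]
      simp only [sum_const, nsmul_eq_mul]
      ring

theorem gq_sum (C M Q V Y m : ℕ) (hGQ : ∀ M Q a b n : ℕ, 1 ≤ M → 1 ≤ Q → b ∣ M →
    ∑ k ∈ range n, gg M Q (a + b * k) ^ 2 ≤ (2 + Real.log Q) ^ C * (n + Q ^ 2))
    (hM : 1 ≤ M) (hQ : 1 ≤ Q) (hm : m ∣ M) :
    ∑ x ∈ Ioc V (2 * V), ∑ y ∈ Icc 1 Y, gg M Q (m * x + M / m * y) ^ 2 ≤
      V * ((2 + Real.log Q) ^ C * ((Y : ℝ) + 1 + Q ^ 2)) := by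
  have h1 : ∀ x ∈ Ioc V (2 * V), ∑ y ∈ Icc 1 Y, gg M Q (m * x + M / m * y) ^ 2 ≤
      (2 + Real.log Q) ^ C * ((Y : ℝ) + 1 + Q ^ 2) := by
    intro x _
    have h2 := hGQ M Q (m * x) (M / m) (Y + 1) hM hQ (Nat.div_dvd_of_dvd hm)
    push_cast at h2
    refine le_trans ?_ h2
    refine sum_le_sum_of_subset_of_nonneg ?_ (fun _ _ _ => sq_nonneg _)
    intro y hy
    rw [mem_Icc] at hy
    rw [mem_range]
    omega
  calc _ ≤ ∑ x ∈ Ioc V (2 * V), (2 + Real.log Q) ^ C * ((Y : ℝ) + 1 + Q ^ 2) := sum_le_sum h1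
    _ = _ := by
      rw [sum_const, nsmul_eq_mul, Nat.card_Ioc]
      have : 2 * V - V = V := by omega
      rw [this]

theorem t_VR (hPR : S_PR) (hFF : S_FF) (hGQ : S_GQ) (hGB : S_GB) (hS : S_SIZ) : S_VR := by
  obtain ⟨C, hC⟩ := hGQ
  obtain ⟨l1, h1⟩ := hS
  obtain ⟨l2, h2⟩ := hFF
  obtain ⟨a1, ha1⟩ := pow_le_exp 2 (1 / 100) 40 (by norm_num)
  obtain ⟨a2, ha2⟩ := pow_le_exp 16 (1 / 100) 0 (by norm_num)
  refine ⟨2 * C + 81, max (max (max l1 l2) (max a1 a2)) 8, ?_⟩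
  intro l hl hSC
  have hl1 : l1 ≤ l := le_trans (by simp) hl
  have hl2 : l2 ≤ l := le_trans (by simp) hl
  have hla1 : a1 ≤ l := le_trans (by simp) hl
  have hla2 : a2 ≤ l := le_trans (by simp) hl
  have hl8 : 8 ≤ l := le_trans (by simp) hl
  obtain ⟨-, hMle, hMQ, hQV, hVY, hMY, hVge, -, hZ⟩ := h1 l hl1
  have hFFl := h2 l hl2 hSC
  have hl0 : 0 ≤ l := by linarith
  have hl1' : 1 ≤ l := by linarith
  have hM := MM_pos l
  have hM1 : 1 ≤ MM l := hM
  have hQ1 := one_le_QQ l hl0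
  have hQle := QQ_le l
  have hQge := QQ_ge l hl0
  have hVle := VV_le l
  have hlogQ := log_QQ_le l hl0
  have hlogQ0 : 0 ≤ Real.log (QQ l) := Real.log_natCast_nonneg _
  have hp1 := ha1 l hla1
  have hp2 := ha2 l hla2
  have hsq := MM_squarefree l
  set M := MM l
  set Q := QQ l
  set V := VV l
  set Y := YY l
  have hY1 : 1 ≤ Y := by
    have : 1 ≤ M ^ 2 := Nat.one_le_pow _ _ hM
    omega
  have hMR : (1 : ℝ) ≤ M := by exact_mod_cast hM1
  have hQR : (1 : ℝ) ≤ Q := by exact_mod_cast hQ1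
  have hYR : (1 : ℝ) ≤ Y := by exact_mod_cast hY1
  have hQ2Y : (Q : ℝ) ^ 2 ≤ Y := by exact_mod_cast hQV.trans hVY
  -- bound for `aa`
  have haaB : ∀ s ≤ 4 * M * Y, aa M s ≤ l ^ 40 := by
    intro s hs
    have h3 : ((M * s + 1 : ℕ) : ℝ) ≤ Real.exp (l ^ 40 / 2 + l / 8) := by
      refine le_trans ?_ hZ
      have : (s : ℝ) ≤ 4 * M * Y := by exact_mod_cast hs
      push_cast
      gcongr
    have h4 : Real.log ((M * s + 1 : ℕ) : ℝ) ≤ l ^ 40 / 2 + l / 8 := by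
      rw [Real.log_le_iff_le_exp (by exact_mod_cast Nat.succ_pos _)]
      exact h3
    have h5 : l ≤ l ^ 40 := le_self_pow₀ hl1' (by norm_num)
    exact (aa_le M s).trans (h4.trans (by linarith))
  have hl40Q : l ^ 40 ≤ Q := by
    have : 2 * l ^ 40 ≤ Real.exp (l / 100) := by
      refine hp1.trans (le_of_eq ?_); congr 1; ring
    linarith
  have hFB : ∀ s ≤ 4 * M * Y, |ff M Q s| ≤ 2 * Q := by
    intro s hs
    unfold ff
    have h3 := haaB s hs
    have h4 := aa_nonneg M s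
    have h5 := hGB M Q s
    rw [abs_le] at h5 ⊢
    constructor <;> linarith [h5.1, h5.2]
  -- the range condition
  have hN : 2 * M * V + M * Y + M ^ 2 ≤ 4 * M * Y := by
    have e1 : 2 * M * V ≤ 2 * M * Y := Nat.mul_le_mul_left _ hVY
    have e2 : M ^ 2 ≤ M * Y := hMY.trans (Nat.le_mul_of_pos_left _ hM)
    nlinarith
  -- the diagonal
  have hDg : ∀ m ∈ M.divisors, ∑ x ∈ Ioc V (2 * V), ∑ y ∈ Icc 1 Y, ff M Q (m * x + M / m * y) ^ 2 ≤
      (V : ℝ) * Y * l ^ (2 * C + 81) := by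
    intro m hm
    have hmd := Nat.dvd_of_mem_divisors hm
    have hmM : m ≤ M := Nat.le_of_dvd hM hmd
    have hmM' : M / m ≤ M := Nat.div_le_self _ _
    have hg := gq_sum C M Q V Y m hC hM1 hQ1 hmd
    have e1 : ∀ x ∈ Ioc V (2 * V), ∀ y ∈ Icc 1 Y, ff M Q (m * x + M / m * y) ^ 2 ≤
        2 * l ^ 80 + 2 * gg M Q (m * x + M / m * y) ^ 2 := by
      intro x hx y hy
      rw [mem_Ioc] at hx
      rw [mem_Icc] at hy
      have hs : m * x + M / m * y ≤ 4 * M * Y := by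
        have f1 : m * x ≤ M * (2 * V) := Nat.mul_le_mul hmM hx.2
        have f2 : M / m * y ≤ M * Y := Nat.mul_le_mul hmM' hy.2
        nlinarith
      have h3 := haaB _ hs
      have h4 := aa_nonneg M (m * x + M / m * y)
      unfold ff
      have h5 : aa M (m * x + M / m * y) ^ 2 ≤ l ^ 80 := by
        calc aa M (m * x + M / m * y) ^ 2 ≤ (l ^ 40) ^ 2 := by gcongr
          _ = l ^ 80 := by ring
      nlinarith [sq_nonneg (aa M (m * x + M / m * y) + gg M Q (m * x + M / m * y))]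
    have e2 : ∑ x ∈ Ioc V (2 * V), ∑ y ∈ Icc 1 Y, ff M Q (m * x + M / m * y) ^ 2 ≤
        V * (Y * (2 * l ^ 80)) + 2 * (V * ((2 + Real.log Q) ^ C * ((Y : ℝ) + 1 + Q ^ 2))) := by
      calc _ ≤ ∑ x ∈ Ioc V (2 * V), ∑ y ∈ Icc 1 Y,
            (2 * l ^ 80 + 2 * gg M Q (m * x + M / m * y) ^ 2) :=
            sum_le_sum fun x hx => sum_le_sum fun y hy => e1 x hx y hy
        _ = V * (Y * (2 * l ^ 80)) +
            2 * ∑ x ∈ Ioc V (2 * V), ∑ y ∈ Icc 1 Y, gg M Q (m * x + M / m * y) ^ 2 := by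
            simp only [sum_add_distrib, ← mul_sum, sum_const, nsmul_eq_mul, Nat.card_Ioc, Nat.card_Icc]
            have : 2 * V - V = V := by omega
            rw [this, Nat.add_sub_cancel]
            ring
        _ ≤ _ := by linarith
    refine e2.trans ?_
    have e3 : (2 + Real.log Q) ^ C ≤ l ^ (2 * C) := by
      rw [pow_mul]
      apply pow_le_pow_left₀ (by linarith)
      nlinarith
    have e4 : ((Y : ℝ) + 1 + Q ^ 2) ≤ 3 * Y := by linarith
    have e5 : V * ((2 + Real.log Q) ^ C * ((Y : ℝ) + 1 + Q ^ 2)) ≤ V * (l ^ (2 * C) * (3 * Y)) := by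
      gcongr
    have e6 : (1 : ℝ) ≤ l ^ (2 * C) := one_le_pow₀ hl1'
    have e7 : (1 : ℝ) ≤ l ^ 80 := one_le_pow₀ hl1'
    have e8 : l ^ (2 * C + 81) = l * (l ^ (2 * C) * l ^ 80) := by ring
    have e9 : 2 * l ^ 80 + 6 * l ^ (2 * C) ≤ l ^ (2 * C + 81) := by
      rw [e8]
      have g1 : l ^ 80 ≤ l ^ (2 * C) * l ^ 80 := le_mul_of_one_le_left (by positivity) e6
      have g2 : l ^ (2 * C) ≤ l ^ (2 * C) * l ^ 80 := le_mul_of_one_le_right (by positivity) e7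
      have g3 : 8 * (l ^ (2 * C) * l ^ 80) ≤ l * (l ^ (2 * C) * l ^ 80) :=
        mul_le_mul_of_nonneg_right hl8 (by positivity)
      linarith
    have hVYn : 0 ≤ (V : ℝ) * Y := by positivity
    calc V * (Y * (2 * l ^ 80)) + 2 * (V * ((2 + Real.log Q) ^ C * ((Y : ℝ) + 1 + Q ^ 2)))
        ≤ V * (Y * (2 * l ^ 80)) + 2 * (V * (l ^ (2 * C) * (3 * Y))) := by linarith
      _ = (V * Y) * (2 * l ^ 80 + 6 * l ^ (2 * C)) := by ring
      _ ≤ (V * Y) * l ^ (2 * C + 81) := mul_le_mul_of_nonneg_left e9 hVYn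
  have hmain := vr_gen M V Y (4 * M * Y) (ff M Q) (Real.exp (l ^ 40 / 2 - l / 6)) (2 * Q)
    ((V : ℝ) * Y * l ^ (2 * C + 81)) hPR hM1 hsq hN (Real.exp_pos _).le (by positivity) hFB
    (fun d A n h3 h4 h5 => hFFl d A n h3 h4 h5) hDg
  refine hmain.trans ?_
  have hoff : ((4 * M * Y : ℕ) : ℝ) * (2 * Q) * Real.exp (l ^ 40 / 2 - l / 6) ≤
      (V : ℝ) * Y * Real.exp (-(l / 50)) := by
    have e1 : (8 : ℝ) * M * Q * Real.exp (l ^ 40 / 2 - l / 6) ≤ V * Real.exp (-(l / 50)) := by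
      have e2 : (8 : ℝ) * M * Q * Real.exp (l ^ 40 / 2 - l / 6) ≤
          8 * Real.exp (l / 1400) * Real.exp (l / 100) * Real.exp (l ^ 40 / 2 - l / 6) := by
        gcongr
      have e3 : Real.exp (l ^ 40 / 2 - l / 8) / 2 * Real.exp (-(l / 50)) ≤ V * Real.exp (-(l / 50)) := by
        gcongr
      refine e2.trans (le_trans ?_ e3)
      have e4 : (16 : ℝ) ≤ Real.exp (1 / 100 * l) := by simpa using hp2
      have e5 : 8 * Real.exp (l / 1400) * Real.exp (l / 100) * Real.exp (l ^ 40 / 2 - l / 6) =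
          8 * Real.exp (l / 1400 + l / 100 + (l ^ 40 / 2 - l / 6)) := by
        rw [Real.exp_add, Real.exp_add]; ring
      have e6 : Real.exp (l ^ 40 / 2 - l / 8) / 2 * Real.exp (-(l / 50)) =
          Real.exp (l ^ 40 / 2 - l / 8 + -(l / 50)) / 2 := by
        rw [Real.exp_add]; ring
      rw [e5, e6]
      have e7 : 16 * Real.exp (l / 1400 + l / 100 + (l ^ 40 / 2 - l / 6)) ≤
          Real.exp (l ^ 40 / 2 - l / 8 + -(l / 50)) := by
        calc 16 * Real.exp (l / 1400 + l / 100 + (l ^ 40 / 2 - l / 6)) ≤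
            Real.exp (1 / 100 * l) * Real.exp (l / 1400 + l / 100 + (l ^ 40 / 2 - l / 6)) := by gcongr
          _ = Real.exp (1 / 100 * l + (l / 1400 + l / 100 + (l ^ 40 / 2 - l / 6))) := by
            rw [← Real.exp_add]
          _ ≤ _ := by
            apply Real.exp_le_exp.mpr
            linarith
      linarith
    calc ((4 * M * Y : ℕ) : ℝ) * (2 * Q) * Real.exp (l ^ 40 / 2 - l / 6) =
        (8 * M * Q * Real.exp (l ^ 40 / 2 - l / 6)) * Y := by push_cast; ring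
      _ ≤ (V * Real.exp (-(l / 50))) * Y := by gcongr
      _ = _ := by ring
  gcongr

end Pool.Agent.N728.SP
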