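import Mathlib
import Pool.Agent.N728.SP.VR
import Pool.Agent.N728.SP.MT
import Pool.Agent.N728.SP.END
import Pool.Agent.N457.SP.TEL
import Pool.Agent.N475.SP.SC
import Pool.Agent.N658.SP.ZP
import Pool.Agent.N690.SP.SPT
import Pool.Agent.N478.SP.BV
import Pool.Agent.N124.SP.DISC
import Pool.Agent.N141.SP.GAP
import Pool.Agent.N391.SP.PR
import Pool.Agent.N525.SP.H1
import Pool.Agent.N99.SP.H2
import Pool.Agent.N282.SP.H3
import Pool.Agent.N525.SP.KSZ
import Pool.Agent.N232.SP.AP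
import Pool.Agent.N232.SP.FF

/-! Project SP: everything except the good scales and the divisor form of the model. -/

set_option autoImplicit false

namespace Pool.Agent.N728.SP

theorem top_of (hGS : S_GS) (hGD : S_GD) (hWB : S_WB) (hGQ : S_GQ) : S_END := by
  have hTEL : S_TEL := Pool.Agent.N457.SP.t_TEL
  have hSC : S_SC := Pool.Agent.N475.SP.t_SC hTEL
  have hSP : S_SP := Pool.Agent.N690.SP.t_SP Pool.Agent.N658.SP.t_ZP hTEL
  have hS : S_SIZ := Pool.Agent.N525.SP.t_SIZ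
  have hAP : S_AP := Pool.Agent.N232.SP.t_AP hSP
  have hFF : S_FF := Pool.Agent.N232.SP.FF.t_FF hAP Pool.Agent.N141.SP.t_GA hS
  have hVR : S_VR := t_VR Pool.Agent.N391.SP.t_PR hFF hGQ Pool.Agent.N141.SP.t_GB hS
  have hD : S_DISC := Pool.Agent.N124.SP.t_DISC Pool.Agent.N478.SP.t_BV hS
  have hMT : S_MT := t_MT hD hSP hGD hWB Pool.Agent.N525.SP.t_H1 Pool.Agent.N99.SP.t_H2
    Pool.Agent.N282.SP.t_H3 Pool.Agent.N282.SP.t_NC hS
  exact t_END hGS hSC (t_LB hMT hVR Pool.Agent.N525.SP.t_K hS) Pool.Agent.N525.SP.t_K hS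
    Pool.Agent.N525.SP.t_PC

end Pool.Agent.N728.SP
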